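import Mathlib
import Pool.Agent.Lib.Pf72953.DBasis

/-!
Generalised Wronskians of linear systems on smooth affine varieties.
-/

set_option autoImplicit false
set_option linter.style.haveILetI false

open Polynomial

namespace Pf72953.Mov

section word

variable {k Y ι : Type*} [Field k] [CharZero k] [Field Y] [Algebra k Y]

/-- iterated partial derivatives -/
noncomputable def word {x : ι → Y} (hx : IsTranscendenceBasis k x) (α : List ι) (f : Y) : Y :=
  α.foldr (fun a g => pd hx a g) f

variable {x : ι → Y} (hx : IsTranscendenceBasis k x)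

@[simp] theorem word_nil (f : Y) : word hx [] f = f := rfl

@[simp] theorem word_cons (a : ι) (α : List ι) (f : Y) :
    word hx (a :: α) f = pd hx a (word hx α f) := rfl

theorem word_append (α β : List ι) (f : Y) : word hx (α ++ β) f = word hx α (word hx β f) := by
  induction α with
  | nil => rfl
  | cons a α ih => rw [List.cons_append, word_cons, word_cons, ih]

theorem word_add (α : List ι) (f g : Y) : word hx α (f + g) = word hx α f + word hx α g := by
  induction α with
  | nil => rfl
  | cons a α ih => rw [word_cons, ih, map_add]; rfl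

theorem word_zero (α : List ι) : word hx α 0 = 0 := by
  induction α with
  | nil => rfl
  | cons a α ih => rw [word_cons, ih, map_zero]

theorem word_smul (α : List ι) (c : k) (f : Y) : word hx α (c • f) = c • word hx α f := by
  induction α with
  | nil => rfl
  | cons a α ih => rw [word_cons, ih, Derivation.map_smul]; rfl

theorem word_sum {κ : Type*} (s : Finset κ) (α : List ι) (f : κ → Y) :
    word hx α (∑ l ∈ s, f l) = ∑ l ∈ s, word hx α (f l) := by
  classical
  induction s using Finset.induction_on with
  | empty => rw [Finset.sum_empty, Finset.sum_empty, word_zero]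
  | insert a s ha ih => rw [Finset.sum_insert ha, Finset.sum_insert ha, word_add, ih]

variable {hx} in
theorem word_mem {A : Subalgebra k Y} (hder : ∀ a, ∀ f ∈ A, pd hx a f ∈ A) (α : List ι) {f : Y}
    (hf : f ∈ A) : word hx α f ∈ A := by
  induction α with
  | nil => exact hf
  | cons a α ih => exact hder a _ ih

end word

section diffideal

variable {k Y ι : Type*} [Field k] [CharZero k] [Field Y] [Algebra k Y]

theorem pd_aeval [Fintype ι] [DecidableEq ι] {x : ι → Y} (hx : IsTranscendenceBasis k x) (a : ι)
    (p : MvPolynomial ι k) :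
    pd hx a (MvPolynomial.aeval x p) = MvPolynomial.aeval x (MvPolynomial.pderiv a p) := by
  induction p using MvPolynomial.induction_on with
  | C c => rw [MvPolynomial.aeval_C, Derivation.map_algebraMap, MvPolynomial.pderiv_C, map_zero]
  | add p q hp hq => rw [map_add, map_add, map_add, map_add, hp, hq]
  | mul_X p i h =>
    rw [map_mul, MvPolynomial.aeval_X, Derivation.leibniz, h, pd_self, Derivation.leibniz,
      map_add, smul_eq_mul, smul_eq_mul, smul_eq_mul, smul_eq_mul, map_mul, map_mul,
      MvPolynomial.aeval_X, MvPolynomial.pderiv_X]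
    congr 2
    by_cases hai : a = i
    · subst hai; simp
    · rw [if_neg hai, Pi.single_eq_of_ne (Ne.symm hai), map_zero]

omit [CharZero k] in
theorem totalDegree_pderiv_lt {p : MvPolynomial ι k} {a : ι}
    (h : MvPolynomial.pderiv a p ≠ 0) :
    (MvPolynomial.pderiv a p).totalDegree < p.totalDegree := by
  classical
  have key : ∀ m ∈ (MvPolynomial.pderiv a p).support, (m.sum fun _ e => e) + 1 ≤ p.totalDegree := by
    intro m hm
    rw [MvPolynomial.mem_support_iff, MvPolynomial.coeff_pderiv] at hm
    have h1 : m + Finsupp.single a 1 ∈ p.support := by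
      rw [MvPolynomial.mem_support_iff]
      exact left_ne_zero_of_mul hm
    have h2 := MvPolynomial.le_totalDegree h1
    rwa [Finsupp.sum_add_index' (fun _ => rfl) (fun _ _ _ => rfl),
      Finsupp.sum_single_index rfl] at h2
  obtain ⟨m, hm⟩ := MvPolynomial.support_nonempty.mpr h
  have h3 := key m hm
  have h4 : (MvPolynomial.pderiv a p).totalDegree ≤ p.totalDegree - 1 := by
    rw [MvPolynomial.totalDegree]
    refine Finset.sup_le fun m hm => ?_
    have := key m hm
    omega
  omega

/-- a polynomial of positive degree has a nonzero partial derivative -/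
theorem exists_pderiv_ne_zero {p : MvPolynomial ι k} (h : p.totalDegree ≠ 0) :
    ∃ a, MvPolynomial.pderiv a p ≠ 0 := by
  classical
  by_contra hcon
  push Not at hcon
  apply h
  rw [← Nat.le_zero, MvPolynomial.totalDegree]
  refine Finset.sup_le fun m hm => ?_
  have hm0 : m = 0 := by
    by_contra hne
    obtain ⟨a, ha⟩ : ∃ a, m a ≠ 0 := by
      by_contra h0
      push Not at h0
      exact hne (Finsupp.ext h0)
    have h1 := MvPolynomial.coeff_pderiv (i := a) p (m - Finsupp.single a 1)
    rw [hcon a, MvPolynomial.coeff_zero, tsub_add_cancel_of_le (by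
      rw [Finsupp.single_le_iff]; omega)] at h1
    rw [MvPolynomial.mem_support_iff] at hm
    rcases mul_eq_zero.mp h1.symm with h2 | h2
    · exact hm h2
    · exact Nat.cast_add_one_ne_zero _ h2
  rw [hm0]
  simp

/-- every nonzero function has a nonvanishing iterated derivative at every point -/
theorem exists_word_notMem [Fintype ι] {x : ι → Y} (hx : IsTranscendenceBasis k x)
    {A : Subalgebra k Y} (hmem : ∀ a, x a ∈ A) (hder : ∀ a, ∀ f ∈ A, pd hx a f ∈ A)
    (P : Ideal A) (hP : P ≠ ⊤) {f : Y} (hf : f ∈ A) (hne : f ≠ 0) :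
    ∃ α : List ι, (⟨word hx α f, word_mem hder α hf⟩ : A) ∉ P := by
  classical
  by_contra hcon
  push Not at hcon
  -- the set of all functions all of whose derivatives vanish
  set Q : Set Y := {g | ∃ hg : g ∈ A, ∀ α : List ι, (⟨word hx α g, word_mem hder α hg⟩ : A) ∈ P}
    with hQ
  have hQpd : ∀ a, ∀ g ∈ Q, pd hx a g ∈ Q := by
    rintro a g ⟨hg, hg'⟩
    refine ⟨hder a g hg, fun α => ?_⟩
    have h1 := hg' (α ++ [a])
    have h2 : word hx (α ++ [a]) g = word hx α (pd hx a g) := word_append hx α [a] g
    have h3 : (⟨word hx (α ++ [a]) g, word_mem hder _ hg⟩ : A) =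
        ⟨word hx α (pd hx a g), word_mem hder α (hder a g hg)⟩ := Subtype.ext h2
    rwa [h3] at h1
  have hQmul : ∀ α : List ι, ∀ h ∈ A, ∀ g (hg : g ∈ Q), ∀ hh : word hx α (h * g) ∈ A,
      (⟨word hx α (h * g), hh⟩ : A) ∈ P := by
    intro α
    induction α using List.reverseRecOn with
    | nil =>
      rintro h hh g ⟨hg, hg'⟩ hhg
      have h1 := P.mul_mem_left ⟨h, hh⟩ (hg' [])
      exact h1
    | append_singleton α a ih =>
      intro h hh g hg hhg
      have h1 : word hx (α ++ [a]) (h * g) = word hx α (h * pd hx a g) +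
          word hx α (pd hx a h * g) := by
        rw [word_append, ← word_add]
        congr 1
        change pd hx a (h * g) = _
        rw [Derivation.leibniz, smul_eq_mul, smul_eq_mul, mul_comm g]
      have hgA : g ∈ A := by obtain ⟨h, _⟩ := hg; exact h
      have h2 := ih h hh (pd hx a g) (hQpd a g hg)
        (word_mem hder α (A.mul_mem hh (hder a g hgA)))
      have h3 := ih (pd hx a h) (hder a h hh) g hg
        (word_mem hder α (A.mul_mem (hder a h hh) hgA))
      have h4 := P.add_mem h2 h3
      have h5 : (⟨word hx (α ++ [a]) (h * g), hhg⟩ : A) =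
          ⟨word hx α (h * pd hx a g), word_mem hder α (A.mul_mem hh (hder a g hgA))⟩ +
          ⟨word hx α (pd hx a h * g), word_mem hder α (A.mul_mem (hder a h hh) hgA)⟩ :=
        Subtype.ext h1
      rw [h5]
      exact h4
  have hQmul' : ∀ h ∈ A, ∀ g ∈ Q, h * g ∈ Q := by
    rintro h hh g hg
    have hgA : g ∈ A := by obtain ⟨h, _⟩ := hg; exact h
    exact ⟨A.mul_mem hh hgA, fun α => hQmul α h hh g hg _⟩
  have hfQ : f ∈ Q := ⟨hf, hcon⟩
  -- a nonzero polynomial in `Q`
  obtain ⟨p, hp0, hpQ⟩ : ∃ p : MvPolynomial ι k, p ≠ 0 ∧ MvPolynomial.aeval x p ∈ Q := by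
    have halg : IsAlgebraic (Algebra.adjoin k (Set.range x)) f := hx.isAlgebraic.isAlgebraic f
    obtain ⟨t, ht, r, hr, hrt⟩ :=
      halg.exists_nonzero_eq_adjoin_mul (mem_nonZeroDivisors_of_ne_zero hne)
    have hrA : (r : Y) ∈ (MvPolynomial.aeval x : MvPolynomial ι k →ₐ[k] Y).range := by
      rw [← Algebra.adjoin_range_eq_range_aeval]
      exact r.2
    obtain ⟨p, hp⟩ := hrA
    have htA : t ∈ A := by
      have hle : Algebra.adjoin k (Set.range x) ≤ A := by
        rw [Algebra.adjoin_le_iff]
        rintro _ ⟨a, rfl⟩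
        exact hmem a
      let S : Subalgebra (Algebra.adjoin k (Set.range x)) Y :=
        { A with algebraMap_mem' := fun r => hle r.2 }
      have h1 : Algebra.adjoin (Algebra.adjoin k (Set.range x)) {f} ≤ S :=
        Algebra.adjoin_le (Set.singleton_subset_iff.mpr hf)
      exact h1 ht
    refine ⟨p, ?_, ?_⟩
    · rintro rfl
      apply hr
      rw [map_zero] at hp
      exact Subtype.ext hp.symm
    · have h1 : MvPolynomial.aeval x p = t * f := by
        rw [mul_comm t f, hrt]
        exact hp
      rw [h1]
      exact hQmul' t htA f hfQ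
  -- minimal degree
  have hmin : ∀ n : ℕ, ∀ p : MvPolynomial ι k, p.totalDegree = n → p ≠ 0 →
      MvPolynomial.aeval x p ∈ Q → False := by
    intro n
    induction n using Nat.strong_induction_on with
    | _ n ih =>
      intro p hpn hp0 hpQ
      by_cases h0 : p.totalDegree = 0
      · rw [MvPolynomial.totalDegree_eq_zero_iff_eq_C] at h0
        set c := MvPolynomial.coeff 0 p with hc
        have hc0 : c ≠ 0 := by
          rintro hc0
          rw [hc0, map_zero] at h0
          exact hp0 h0
        obtain ⟨hA, hall⟩ := hpQ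
        have h1 := hall []
        apply hP
        rw [Ideal.eq_top_iff_one]
        have h2 := P.mul_mem_left (algebraMap k A c⁻¹) h1
        have h3 : algebraMap k A c⁻¹ * (⟨word hx [] (MvPolynomial.aeval x p),
            word_mem hder [] hA⟩ : A) = 1 := by
          apply Subtype.ext
          change algebraMap k Y c⁻¹ * MvPolynomial.aeval x p = 1
          rw [h0, MvPolynomial.aeval_C, ← map_mul, inv_mul_cancel₀ hc0, map_one]
        rwa [h3] at h2
      · obtain ⟨a, ha⟩ := exists_pderiv_ne_zero h0
        refine ih _ ?_ (MvPolynomial.pderiv a p) rfl ha ?_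
        · rw [← hpn]
          exact totalDegree_pderiv_lt ha
        · rw [← pd_aeval hx]
          exact hQpd a _ hpQ
  exact hmin _ p rfl hp0 hpQ

end diffideal

section minors

variable {k Y ι : Type*} [Field k] [CharZero k] [Field Y] [Algebra k Y]

/-- the generalised Wronskian -/
noncomputable def wron {x : ι → Y} (hx : IsTranscendenceBasis k x) {r : ℕ} (σ : Fin (r + 1) → Y)
    (τ : Fin (r + 1) → List ι) : Y :=
  Matrix.det (Matrix.of fun l l' => word hx (τ l) (σ l'))

theorem wron_mem {x : ι → Y} {hx : IsTranscendenceBasis k x} {A : Subalgebra k Y}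
    (hder : ∀ a, ∀ f ∈ A, pd hx a f ∈ A) {r : ℕ} {σ : Fin (r + 1) → Y} (hσ : ∀ l, σ l ∈ A)
    (τ : Fin (r + 1) → List ι) : wron hx σ τ ∈ A := by
  rw [wron, Matrix.det_apply]
  refine A.sum_mem fun π _ => ?_
  rw [Units.smul_def]
  exact zsmul_mem (A.prod_mem fun l _ => word_mem hder _ (hσ _)) _

/-- If at every point of the smooth affine variety `Spec A` some derivative of the type allowed by `W`
of every nonzero `k`-combination of the `σ l` does not vanish, then the Wronskians of type `W` generate
the unit ideal. -/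
theorem exists_minors [IsAlgClosed k] {x : ι → Y} {hx : IsTranscendenceBasis k x}
    {A : Subalgebra k Y} (hfg : A.FG) (hder : ∀ a, ∀ f ∈ A, pd hx a f ∈ A) {r : ℕ}
    {σ : Fin (r + 1) → Y} (hσ : ∀ l, σ l ∈ A) (W : Set (List ι))
    (hW : ∀ P : Ideal A, P.IsMaximal → ∀ c : Fin (r + 1) → k, c ≠ 0 →
      ∃ α ∈ W, ∃ f : A, f ∉ P ∧ (f : Y) = word hx α (∑ l, c l • σ l)) :
    ∃ (s : Finset (Fin (r + 1) → List ι)) (g : (Fin (r + 1) → List ι) → Y),
      (∀ τ ∈ s, ∀ l, τ l ∈ W) ∧ (∀ τ, g τ ∈ A) ∧ ∑ τ ∈ s, g τ * wron hx σ τ = 1 := by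
  classical
  set T : Set (Fin (r + 1) → List ι) := {τ | ∀ l, τ l ∈ W} with hT
  set m : (Fin (r + 1) → List ι) → A := fun τ => ⟨wron hx σ τ, wron_mem hder hσ τ⟩ with hm
  have htop : Ideal.span (m '' T) = ⊤ := by
    by_contra hne
    obtain ⟨P, hP, hle⟩ := Ideal.exists_le_maximal _ hne
    -- Nullstellensatz
    letI := Ideal.Quotient.field P
    haveI : Algebra.FiniteType k A := (Subalgebra.fg_iff_finiteType A).mp hfg
    haveI : Algebra.FiniteType k (A ⧸ P) := inferInstance
    haveI : Module.Finite k (A ⧸ P) := finite_of_finite_type_of_isJacobsonRing k (A ⧸ P)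
    have hbij : Function.Bijective (algebraMap k (A ⧸ P)) :=
      IsAlgClosed.algebraMap_bijective_of_isIntegral
    let e : (A ⧸ P) →ₗ[k] k := (LinearEquiv.ofBijective (Algebra.linearMap k (A ⧸ P)) hbij).symm
    let ev : A →+* k := (RingEquiv.ofBijective (algebraMap k (A ⧸ P)) hbij).symm.toRingHom.comp
      (Ideal.Quotient.mk P)
    have hev : ∀ f : A, ev f = 0 ↔ f ∈ P := by
      intro f
      change (RingEquiv.ofBijective (algebraMap k (A ⧸ P)) hbij).symm (Ideal.Quotient.mk P f) = 0 ↔ _
      rw [map_eq_zero_iff _ (RingEquiv.injective _), Ideal.Quotient.eq_zero_iff_mem]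
    have hevc : ∀ c : k, ev (algebraMap k A c) = c := by
      intro c
      change (RingEquiv.ofBijective (algebraMap k (A ⧸ P)) hbij).symm
        (algebraMap k (A ⧸ P) c) = c
      rw [RingEquiv.symm_apply_eq]
      rfl
    -- the vectors of derivatives
    let v : List ι → Fin (r + 1) → k := fun α l => ev ⟨word hx α (σ l), word_mem hder α (hσ l)⟩
    have hspan : Submodule.span k (v '' W) ≠ ⊤ := by
      intro hspan
      obtain ⟨b, hbsub, hbspan, hbli⟩ := exists_linearIndependent k (v '' W)
      rw [hspan] at hbspan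
      let B := Module.Basis.mk hbli (by rw [Subtype.range_coe, hbspan])
      haveI : Fintype b := FiniteDimensional.fintypeBasisIndex B
      have hcard : Fintype.card b = r + 1 := by
        rw [← Module.finrank_eq_card_basis B]
        simp
      let eb : Fin (r + 1) ≃ b := (Fintype.equivFinOfCardEq hcard).symm
      choose τ hτW hτ using fun l => hbsub (eb l).2
      have hli : LinearIndependent k (fun l => v (τ l)) := by
        have h1 : (fun l => v (τ l)) = (fun x : b => (x : Fin (r + 1) → k)) ∘ eb := by
          funext l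
          exact hτ l
        rw [h1]
        exact hbli.comp eb eb.injective
      have hdet : Matrix.det (Matrix.of fun l l' => v (τ l) l') ≠ 0 := by
        have h2 := (Matrix.linearIndependent_rows_iff_isUnit
          (A := Matrix.of fun l l' => v (τ l) l')).mp hli
        rw [Matrix.isUnit_iff_isUnit_det] at h2
        exact h2.ne_zero
      apply hdet
      have h3 : m τ ∈ P := hle (Ideal.subset_span ⟨τ, hτW, rfl⟩)
      rw [← hev] at h3
      rw [← h3]
      have h4 : m τ = Matrix.det (Matrix.of fun l l' =>
          (⟨word hx (τ l) (σ l'), word_mem hder _ (hσ l')⟩ : A)) := by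
        apply Subtype.ext
        change wron hx σ τ = A.val _
        rw [AlgHom.map_det]
        rfl
      rw [h4, RingHom.map_det]
      rfl
    obtain ⟨φ, hφ, hker⟩ := Submodule.exists_le_ker_of_lt_top _ (lt_top_iff_ne_top.mpr hspan)
    set c : Fin (r + 1) → k := fun l => φ (Pi.single l 1) with hc
    have hφc : ∀ u : Fin (r + 1) → k, φ u = ∑ l, c l * u l := by
      intro u
      conv_lhs => rw [pi_eq_sum_univ u, map_sum]
      refine Finset.sum_congr rfl fun l _ => ?_
      rw [map_smul, smul_eq_mul, mul_comm, hc]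
      congr 2
      funext j
      simp [Pi.single_apply, eq_comm]
    have hc0 : c ≠ 0 := by
      intro h0
      apply hφ
      ext1
      apply LinearMap.ext
      intro u
      rw [LinearMap.comp_apply, hφc, h0]
      simp
    obtain ⟨α, hαW, f, hf, hfeq⟩ := hW P hP c hc0
    apply hf
    rw [← hev]
    have h5 : f = ∑ l, algebraMap k A (c l) * ⟨word hx α (σ l), word_mem hder α (hσ l)⟩ := by
      apply Subtype.ext
      rw [hfeq, word_sum]
      change _ = A.val _
      rw [map_sum]
      refine Finset.sum_congr rfl fun l _ => ?_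
      rw [word_smul, Algebra.smul_def, map_mul]
      rfl
    rw [h5, map_sum]
    have h6 : v α ∈ Submodule.span k (v '' W) := Submodule.subset_span ⟨α, hαW, rfl⟩
    have h7 : φ (v α) = 0 := hker h6
    rw [hφc] at h7
    rw [← h7]
    refine Finset.sum_congr rfl fun l _ => ?_
    rw [map_mul, hevc]
  have h1 : (1 : A) ∈ Submodule.span A (m '' T) := by
    rw [← Ideal.eq_top_iff_one]
    exact htop
  rw [Finsupp.mem_span_image_iff_linearCombination] at h1
  obtain ⟨l, hl, hl1⟩ := h1
  refine ⟨l.support, fun τ => (l τ : Y), fun τ hτ => hl hτ, fun τ => (l τ).2, ?_⟩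
  have h2 := congrArg (fun z : A => (z : Y)) hl1
  rw [Finsupp.linearCombination_apply, Finsupp.sum] at h2
  have h3 : ((∑ τ ∈ l.support, l τ • m τ : A) : Y) = ∑ τ ∈ l.support, (l τ : Y) * wron hx σ τ := by
    change A.val _ = _
    rw [map_sum]
    rfl
  rw [h3] at h2
  exact h2

/-- the multiplicities of the nonzero members of a linear system are bounded -/
theorem exists_mult_bound [IsAlgClosed k] [Fintype ι] {x : ι → Y}
    {hx : IsTranscendenceBasis k x} {A : Subalgebra k Y} (hfg : A.FG) (hmem : ∀ a, x a ∈ A)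
    (hder : ∀ a, ∀ f ∈ A, pd hx a f ∈ A) {r : ℕ} {σ : Fin (r + 1) → Y} (hσ : ∀ l, σ l ∈ A)
    (hli : LinearIndependent k σ) :
    ∃ (C : ℕ) (s : Finset (Fin (r + 1) → List ι)) (g : (Fin (r + 1) → List ι) → Y),
      (∀ τ ∈ s, ∀ l, (τ l).length ≤ C) ∧ (∀ τ, g τ ∈ A) ∧ ∑ τ ∈ s, g τ * wron hx σ τ = 1 := by
  classical
  obtain ⟨s, g, -, hg, h1⟩ := exists_minors hfg hder hσ Set.univ (by
    intro P hP c hc
    have hsum : ∑ l, c l • σ l ∈ A := A.sum_mem fun l _ => A.smul_mem (hσ l) _
    have hne : ∑ l, c l • σ l ≠ 0 := by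
      intro h0
      apply hc
      funext l
      exact Fintype.linearIndependent_iff.mp hli c h0 l
    obtain ⟨α, hα⟩ := exists_word_notMem hx hmem hder P hP.ne_top hsum hne
    exact ⟨α, Set.mem_univ _, _, hα, rfl⟩)
  refine ⟨s.sup fun τ => Finset.univ.sup fun l => (τ l).length, s, g, fun τ hτ l => ?_, hg, h1⟩
  exact (Finset.le_sup (f := fun l => (τ l).length) (Finset.mem_univ l)).trans
    (Finset.le_sup (f := fun τ => Finset.univ.sup fun l => (τ l).length) hτ)

end minors

end Pf72953.Mov
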