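import Mathlib
import Pool.Agent.Lib.Pf72953.Defs

/-!
Divisors moving in linear systems on a smooth complete variety: definitions.
-/

set_option autoImplicit false
set_option linter.style.haveILetI false

open scoped WithZero
open Pf72953

namespace Pf72953.Mov

/-- A smooth complete model of the function field `Y/k`, given by finitely many smooth affine charts
`Spec (A i)` with étale coordinates `x i : Spec (A i) → 𝔸ⁿ`, `n = dim Y`; completeness: every
discrete valuation of `Y` trivial on `k` is centred on a chart. -/
structure SmoothModel (k Y : Type*) [Field k] [Field Y] [Algebra k Y] where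
  /-- the index set of the charts -/
  I : Type
  /-- finitely many charts -/
  finite : Finite I
  /-- the coordinate rings -/
  A : I → Subalgebra k Y
  /-- the étale coordinates -/
  x : I → Fin (dimension k Y) → Y
  /-- the coordinate rings are finitely generated -/
  fg : ∀ i, (A i).FG
  /-- the function field of every chart is `Y` -/
  frac : ∀ i (f : Y), ∃ g ∈ A i, ∃ h ∈ A i, h ≠ 0 ∧ f = g / h
  /-- the coordinates are a transcendence basis -/
  tb : ∀ i, IsTranscendenceBasis k (x i)
  /-- the coordinates are regular functions -/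
  mem : ∀ i a, x i a ∈ A i
  /-- the coordinates are étale: a vector field which is regular on the coordinates is regular -/
  der : ∀ i (D : Derivation k Y Y), (∀ a, D (x i a) ∈ A i) → ∀ f ∈ A i, D f ∈ A i
  /-- completeness -/
  cover : ∀ v : Valuation Y ℤᵐ⁰, (∀ c : k, c ≠ 0 → v (algebraMap k Y c) = 1) →
    ∃ i, ∀ f ∈ A i, v f ≤ 1

variable {k Y : Type*} [Field k] [Field Y] [Algebra k Y]

/-- A line bundle (a subsheaf of the constant sheaf `Y`): `gen i` is a generator on the chart `i`. -/
structure LineBundle (M : SmoothModel k Y) where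
  /-- the local generators -/
  gen : M.I → Y
  ne : ∀ i, gen i ≠ 0
  /-- the quotient of two local generators is a unit wherever both are defined -/
  compat : ∀ (i j : M.I) (v : Valuation Y ℤᵐ⁰), (∀ f ∈ M.A i, v f ≤ 1) → (∀ f ∈ M.A j, v f ≤ 1) →
    v (gen i) = v (gen j)

/-- the global sections of a line bundle -/
def LineBundle.sections {M : SmoothModel k Y} (S : LineBundle M) : Set Y :=
  {s | ∀ i, ∃ f ∈ M.A i, s = f * S.gen i}

/-- the global sections of `m K + ∑ q_j S_j`: the `m`-fold `n`-forms which are on every chart `i` of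
the form `f ∏ g_{ij}^{q_j} (dx_{i1} ∧ ⋯ ∧ dx_{in})^m`, `f ∈ A i`, `g_{ij}` the generator of `S_j`. -/
def pluriSections {J : Type*} [Fintype J] (M : SmoothModel k Y) (S : J → LineBundle M) (m : ℕ)
    (q : J → ℕ) : Set (PluriForm k Y (dimension k Y) m) :=
  {ω | ∀ i, ∃ f ∈ M.A i, ω = (f * ∏ j, (S j).gen i ^ q j) • pureForm k (fun _ => M.x i)}

/-- `κ(K + ∑ S_j) ≥ c` -/
def LogKodairaGE {J : Type*} [Fintype J] (M : SmoothModel k Y) (S : J → LineBundle M)
    (c : ℕ) : Prop :=
  ∃ m : ℕ, 1 ≤ m ∧ ∃ ω₀ ∈ pluriSections M S m (fun _ => m), ω₀ ≠ 0 ∧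
    ∃ f : Fin c → Y, AlgebraicIndependent k f ∧ ∀ i, f i • ω₀ ∈ pluriSections M S m (fun _ => m)

/-- the Iitaka dimension of `K + ∑ S_j` -/
noncomputable def logKodairaDim {J : Type*} [Fintype J] (M : SmoothModel k Y)
    (S : J → LineBundle M) : WithBot ℕ∞ :=
  ⨆ (c : ℕ) (_ : LogKodairaGE M S c), ((c : ℕ∞) : WithBot ℕ∞)

/-- iterated derivatives -/
def iter (Ds : List (Derivation k Y Y)) (f : Y) : Y := Ds.foldr (fun D g => D g) f

/-- An effective divisor `div (∑ a_l s_l)` on `M × Spec B'`, `B' ⊆ L` algebraic over `B`, moving in the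
linear system spanned by the sections `s_l` of the line bundle `S` on `M`. -/
structure MovingDivisor (M : SmoothModel k Y) (B L : Type*) [Field B] [Field L]
    [Algebra B L] [Algebra Y L] where
  /-- the line bundle -/
  S : LineBundle M
  /-- the dimension of the linear system -/
  r : ℕ
  /-- the sections -/
  s : Fin (r + 1) → Y
  /-- the coefficients -/
  a : Fin (r + 1) → L
  s_mem : ∀ l, s l ∈ S.sections
  s_indep : LinearIndependent k s
  a_alg : ∀ l, IsAlgebraic B (a l)
  a_ne : ∃ l, a l ≠ 0

namespace MovingDivisor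

variable {M : SmoothModel k Y} {B L : Type*} [Field B] [Field L] [Algebra B L] [Algebra Y L]

/-- the section `∑ a_l s_l` -/
def sec (D : MovingDivisor M B L) : L := ∑ l, D.a l * algebraMap Y L (D.s l)

/-- the nonzero members of the linear system have multiplicity at most `C` at all points of `M`: some
iterated derivative of order at most `C` of a local equation does not vanish. -/
def MultLE (D : MovingDivisor M B L) (C : ℕ) : Prop :=
  ∀ (i : M.I) (P : Ideal (M.A i)), P.IsMaximal → ∀ c : Fin (D.r + 1) → k, c ≠ 0 →
    ∃ Ds : List (Derivation k Y Y), Ds.length ≤ C ∧ (∀ d ∈ Ds, ∀ f ∈ M.A i, d f ∈ M.A i) ∧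
      ∃ f : M.A i, f ∉ P ∧ (f : Y) = iter Ds ((∑ l, c l • D.s l) / D.S.gen i)

/-- `Spec L` over the generic point of `M × Spec B'` is ramified along all divisors lying over
`div (∑ a_l s_l)`: if `w` is a divisorial valuation of `L/k` trivial on `B`, centred on the chart `i`
of `M` and on the divisor, then the relative form `dx_{i1} ∧ ⋯ ∧ dx_{in}` of `L/B` vanishes at `w`,
i.e. `det (D_a (x_{ib}))` is not a unit of the valuation ring for any `B`-derivations `D_a` of the
valuation ring. -/
def Ramified (D : MovingDivisor M B L) [Algebra k L] : Prop :=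
  ∀ w : Valuation L ℤᵐ⁰, IsDivisorial k L w → (∀ b : B, b ≠ 0 → w (algebraMap B L b) = 1) →
    ∀ i, (∀ f ∈ M.A i, w (algebraMap Y L f) ≤ 1) → w D.sec < w (algebraMap Y L (D.S.gen i)) →
      ∀ d : Fin (dimension k Y) → Derivation B L L, (∀ a z, w z ≤ 1 → w (d a z) ≤ 1) →
        w (Matrix.det (Matrix.of fun a b => d a (algebraMap Y L (M.x i b)))) < 1

/-- the quotients of the coefficients -/
def ratios (D : MovingDivisor M B L) : Set L := {θ | ∃ l l', θ = D.a l / D.a l'}

end MovingDivisor

/-- `L/E` is unramified at all divisorial valuations of `L/k` trivial on `B`: the valuation ring has a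
uniformizer in `E`.  (This holds if `L` is generated over `E` by elements algebraic over `B`, or, more
generally, if `L` is the function field of a finite étale cover of a smooth model of the geometric
generic fibre of `E/B`.) -/
def Unramified (k B E L : Type*) [Field k] [Field B] [Field E] [Field L] [Algebra k L]
    [Algebra B L] [Algebra E L] : Prop :=
  ∀ w : Valuation L ℤᵐ⁰, IsDivisorial k L w → (∀ b : B, b ≠ 0 → w (algebraMap B L b) = 1) →
    ∀ z : L, w z < 1 → ∃ t : E, w (algebraMap E L t) < 1 ∧ w z ≤ w (algebraMap E L t)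

end Pf72953.Mov
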