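import Mathlib
import Pool.Agent.Lib.Pf72953.Abhyankar
import Pool.Agent.Lib.Pf72953.Coord
import Pool.Agent.Lib.Pf72953.Estimate
import Pool.Agent.Lib.Pf72953m.Defs

/-!
Divisorial valuations trivial on the base: the relative volume form.
-/

set_option autoImplicit false
set_option linter.style.haveILetI false

open scoped WithZero
open IsLocalRing Algebra Polynomial
open Pf72953

namespace Pf72953.Mov

/-- a divisorial valuation of `L/k` which is trivial on `B` is a divisorial valuation of `L/B` -/
theorem IsDivisorial.over {k B L : Type*} [Field k] [Field B] [Field L] [Algebra k B] [Algebra k L]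
    [Algebra B L] [IsScalarTower k B L] [FinTrdeg k L] {w : Valuation L ℤᵐ⁰}
    (hw : IsDivisorial k L w) (htriv : ∀ b : B, b ≠ 0 → w (algebraMap B L b) = 1) :
    IsDivisorial B L w := by
  classical
  have hB : ∀ b : B, algebraMap B L b ∈ w.valuationSubring := by
    intro b
    rcases eq_or_ne b 0 with rfl | hb
    · simp
    · exact (htriv b hb).le
  have hk : ∀ c : k, algebraMap k L c ∈ w.valuationSubring := by
    intro c
    rcases eq_or_ne c 0 with rfl | hc
    · simp
    · exact (hw.const c hc).le
  letI algB : Algebra B w.valuationSubring :=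
    ((algebraMap B L).codRestrict w.valuationSubring hB).toAlgebra
  letI algk : Algebra k w.valuationSubring :=
    ((algebraMap k L).codRestrict w.valuationSubring hk).toAlgebra
  haveI : IsScalarTower B w.valuationSubring L := IsScalarTower.of_algebraMap_eq fun _ => rfl
  haveI : IsScalarTower k w.valuationSubring L := IsScalarTower.of_algebraMap_eq fun _ => rfl
  haveI : IsScalarTower k B w.valuationSubring := IsScalarTower.of_algebraMap_eq fun c =>
    Subtype.ext (by
      change algebraMap k L c = algebraMap B L (algebraMap k B c)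
      rw [← IsScalarTower.algebraMap_apply k B L])
  haveI : IsScalarTower k B (ResidueField w.valuationSubring) :=
    IsScalarTower.of_algebraMap_eq fun c => by
      rw [IsScalarTower.algebraMap_apply k w.valuationSubring (ResidueField w.valuationSubring),
        IsScalarTower.algebraMap_apply k B w.valuationSubring]
      rfl
  obtain ⟨x, hx⟩ := hw.resid
  have hx' : ResIndep k w x := hx
  have hmem : ∀ i, x i ∈ w.valuationSubring := fun i => (hx'.apply i).le
  have hx'' := (resIndep_iff w (fun i => (⟨x i, hmem i⟩ : w.valuationSubring))).mp hx'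
  have hL := natCast_le_trdeg_of_le_dimension hx''
  have hsum := lift_trdeg_add_eq k B L
  have hsum' := lift_trdeg_add_eq k B (ResidueField w.valuationSubring)
  have hfin : Algebra.trdeg k L < Cardinal.aleph0 := trdeg_lt_aleph0 k L
  obtain ⟨n, hn⟩ := Cardinal.lt_aleph0.mp hfin
  have hn' : dimension k L = n := by rw [dimension, hn, Cardinal.toNat_natCast]
  rw [hn, Cardinal.lift_natCast] at hsum
  have hfin2 := hsum.trans_lt (Cardinal.natCast_lt_aleph0 (n := n))
  rw [Cardinal.add_lt_aleph0_iff, Cardinal.lift_lt_aleph0, Cardinal.lift_lt_aleph0] at hfin2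
  obtain ⟨f, hf⟩ := Cardinal.lt_aleph0.mp hfin2.1
  obtain ⟨d, hd⟩ := Cardinal.lt_aleph0.mp hfin2.2
  have hd' : dimension B L = d := by rw [dimension, hd, Cardinal.toNat_natCast]
  rw [hf, hd, Cardinal.lift_natCast, Cardinal.lift_natCast] at hsum
  have hfd : f + d = n := by exact_mod_cast hsum
  have hgoal : ((dimension B L - 1 : ℕ) : Cardinal) ≤
      Algebra.trdeg B (ResidueField w.valuationSubring) := by
    by_contra hlt
    rw [not_le] at hlt
    obtain ⟨e, he⟩ := Cardinal.lt_aleph0.mp (hlt.trans Cardinal.natCast_lt_aleph0)
    rw [he] at hlt hsum'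
    have hlt' : e < dimension B L - 1 := by exact_mod_cast hlt
    rw [hf, Cardinal.lift_natCast, Cardinal.lift_natCast] at hsum'
    have h6 := Cardinal.lift_le.mpr hL
    rw [← hsum', Cardinal.lift_natCast] at h6
    have h7 : dimension k L - 1 ≤ f + e := by exact_mod_cast h6
    omega
  obtain ⟨y, hy⟩ := exists_algebraicIndependent_of_le_trdeg hgoal
  choose z hz using fun i => residue_surjective (y i)
  have hz' : (fun i => residue w.valuationSubring (z i)) = y := funext hz
  exact ⟨htriv, hw.nontrivial, fun i => (z i : L), (resIndep_iff w z).mpr (by rw [hz']; exact hy)⟩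

/-- derivations over `B` vanish on elements algebraic over `B` -/
theorem der_eq_zero_of_isAlgebraic {B L : Type*} [Field B] [CharZero B] [Field L] [Algebra B L]
    (D : Derivation B L L) {b : L} (hb : IsAlgebraic B b) : D b = 0 := by
  have hbi : IsIntegral B b := hb.isIntegral
  have hsep : (minpoly B b).Separable := (minpoly.irreducible hbi).separable
  have h1 : D (aeval b (minpoly B b)) = aeval b (derivative (minpoly B b)) • D b :=
    Derivation.map_aeval D (minpoly B b) b
  rw [minpoly.aeval, map_zero] at h1
  have h2 : aeval b (derivative (minpoly B b)) ≠ 0 := by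
    intro h0
    obtain ⟨u, v, huv⟩ := hsep
    have := congrArg (aeval b) huv
    rw [map_add, map_mul, map_mul, h0, minpoly.aeval, mul_zero, mul_zero, add_zero, map_one] at this
    exact zero_ne_one this
  rcases smul_eq_zero.mp h1.symm with h | h
  · exact absurd h h2
  · exact h

/-- a `k`-derivation vanishing on `B` is a `B`-derivation -/
def derOver {k B L : Type*} [Field k] [Field B] [Field L] [Algebra k L] [Algebra B L]
    (D : Derivation k L L) (hD : ∀ b : B, D (algebraMap B L b) = 0) : Derivation B L L where
  toFun := D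
  map_add' := D.map_add
  map_smul' := by
    intro r x
    rw [Algebra.smul_def, Derivation.leibniz, hD, smul_zero, add_zero, RingHom.id_apply,
      algebraMap_smul]
  map_one_eq_zero' := D.map_one_eq_zero
  leibniz' := D.leibniz

theorem derOver_apply {k B L : Type*} [Field k] [Field B] [Field L] [Algebra k L] [Algebra B L]
    (D : Derivation k L L) (hD : ∀ b : B, D (algebraMap B L b) = 0) (z : L) :
    derOver D hD z = D z := rfl

section ram

variable {k B Y L ιB ι : Type*} [Field k] [CharZero k] [Field B] [Field Y] [Field L] [Algebra k B]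
  [Algebra k Y] [Algebra k L] [Algebra B L] [Algebra Y L] [IsScalarTower k B L]
  [Fintype ιB] [DecidableEq ιB] [Fintype ι] [DecidableEq ι] [Algebra.EssFiniteType k L]

/-- the vanishing of the relative volume form, in logarithmic terms -/
theorem jac_lt_one {x : ιB → B} (hx : IsTranscendenceBasis k x) {ξ : ι → L}
    (hz : IsTranscendenceBasis k (Sum.elim (fun i => algebraMap B L (x i)) ξ))
    {w : Valuation L ℤᵐ⁰} (hw : IsDivisorial k L w)
    (htriv : ∀ b : B, b ≠ 0 → w (algebraMap B L b) = 1)
    (hram : ∀ d : ι → Derivation B L L, (∀ a z, w z ≤ 1 → w (d a z) ≤ 1) →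
      w (Matrix.det (Matrix.of fun a b => d a (ξ b))) < 1)
    {c : ιB ⊕ ι → L} (hc : RegBasis k w c) :
    w (jac hc.tb (Sum.elim (fun i => algebraMap B L (x i)) ξ)) < 1 := by
  classical
  haveI : CharZero B := charZero_of_injective_algebraMap (algebraMap k B).injective
  haveI : Algebra.EssFiniteType B L := Algebra.EssFiniteType.of_comp k B L
  have hwB : IsDivisorial B L w := IsDivisorial.over hw htriv
  have hcardB := card_eq_of_isTranscendenceBasis hx
  have hcardL : Fintype.card (ιB ⊕ ι) = dimension k L := card_eq_of_isTranscendenceBasis hz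
  -- the relative dimension
  have hdim : Fintype.card ι = dimension B L := by
    obtain ⟨s, hs⟩ := exists_isTranscendenceBasis B L
    haveI := finite_of_isTranscendenceBasis hs
    haveI := Fintype.ofFinite s
    have h1 := hx.sumElim_comp hs
    have h2 := card_eq_of_isTranscendenceBasis h1
    have h3 := card_eq_of_isTranscendenceBasis hs
    rw [Fintype.card_sum] at h2 hcardL
    omega
  obtain ⟨c', t', ht', hc'⟩ := hwB.exists_adapted hdim
  have hreg := hc'.regBasis hdim ht'
  have hz' : IsTranscendenceBasis k (Sum.elim (fun i => algebraMap B L (x i)) c') := by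
    have h1 := hx.sumElim_comp hreg.tb
    have h2 := (isTranscendenceBasis_equiv (Equiv.sumComm ιB ι)).mpr h1
    convert h2 using 1
    funext i
    rcases i with i | i <;> rfl
  -- the dual derivations over `B`
  have hkill : ∀ a (b : B), pd hz' (Sum.inr a) (algebraMap B L b) = 0 := fun a b =>
    pd_algebraMap_of_notMem hx hz' Sum.inl (fun _ => rfl) (Sum.inr a) (fun _ h => by cases h) b
  have hpd : ∀ a z, pd hz' (Sum.inr a) z = pd hreg.tb a z := by
    intro a z
    have h1 := der_eq_sum hreg.tb (derOver (pd hz' (Sum.inr a)) (hkill a)) z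
    rw [derOver_apply] at h1
    rw [h1, Finset.sum_eq_single a]
    · rw [derOver_apply]
      have h2 := pd_self hz' (Sum.inr a) (Sum.inr a)
      rw [if_pos rfl] at h2
      change pd hreg.tb a z * pd hz' (Sum.inr a)
        (Sum.elim (fun i => algebraMap B L (x i)) c' (Sum.inr a)) = _
      rw [h2, mul_one]
    · intro b _ hb
      rw [derOver_apply]
      have h2 := pd_self hz' (Sum.inr a) (Sum.inr b)
      rw [if_neg (fun h => hb (Sum.inr_injective h).symm)] at h2
      change pd hreg.tb b z * pd hz' (Sum.inr a)
        (Sum.elim (fun i => algebraMap B L (x i)) c' (Sum.inr b)) = _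
      rw [h2, mul_zero]
    · simp
  have h1 := hram (fun a => pd hreg.tb a) (fun a z hz => hreg.der a z hz)
  have h2 : jac hz' (Sum.elim (fun i => algebraMap B L (x i)) ξ) =
      Matrix.det (Matrix.of fun a b => pd hreg.tb a (ξ b)) := by
    rw [jac_eq_det]
    have h3 : (Matrix.of fun p q => pd hz' p
        ((Sum.elim (fun i => algebraMap B L (x i)) ξ) q)) =
        Matrix.fromBlocks 1 (Matrix.of fun p b => pd hz' (Sum.inl p) (ξ b)) 0
          (Matrix.of fun a b => pd hreg.tb a (ξ b)) := by
      ext p q
      rcases p with p | p <;> rcases q with q | q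
      · have h4 := pd_self hz' (Sum.inl p) (Sum.inl q)
        simp only [Sum.elim_inl, Sum.inl.injEq] at h4
        simp only [Matrix.of_apply, Sum.elim_inl, Matrix.fromBlocks_apply₁₁, h4, Matrix.one_apply]
      · rfl
      · simp only [Matrix.of_apply, Sum.elim_inl, Matrix.fromBlocks_apply₂₁, hkill,
          Matrix.zero_apply]
      · simp only [Matrix.of_apply, Sum.elim_inr, Matrix.fromBlocks_apply₂₂, hpd]
    rw [h3, Matrix.det_fromBlocks_zero₂₁, Matrix.det_one, one_mul]
  have hle : w (jac hc.tb (Sum.elim (fun i => algebraMap B L (x i)) c')) ≤ 1 := by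
    refine hc.jac_le _ ?_
    rintro (i | i)
    · rcases eq_or_ne (x i) 0 with h | h
      · simp [h]
      · exact (htriv _ h).le
    · exact hreg.le_one i
  rw [jac_chain hz' hc.tb, map_mul, h2]
  calc _ ≤ 1 * w (Matrix.det (Matrix.of fun a b => pd hreg.tb a (ξ b))) := by gcongr
    _ = w (Matrix.det (Matrix.of fun a b => pd hreg.tb a (ξ b))) := one_mul _
    _ < 1 := h1

end ram

end Pf72953.Mov
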