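import Mathlib
import Pool.Agent.Lib.Pf72953.Bases
import Pool.Agent.Lib.Pf72953v.Diff
import Pool.Agent.Lib.Pf72953m.Wron

/-!
The key estimate: the order of vanishing of a moving member of a linear system is bounded by a multiple of
the logarithmic order of the volume form.
-/

set_option autoImplicit false
set_option linter.style.haveILetI false

open scoped WithZero
open Pf72953 Pf72953.Var

namespace Pf72953.Mov

section cost

variable {k L κ : Type*} [Field k] [CharZero k] [Field L] [Algebra k L] [Fintype κ] [DecidableEq κ]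
  {w : Valuation L ℤᵐ⁰}

theorem jac_update {z : κ → L} (hz : IsTranscendenceBasis k z) {c : κ → L}
    (hc : IsTranscendenceBasis k c) (i : κ) (g : L) :
    jac hc (Function.update z i g) = jac hc z * pd hz i g := by
  rw [jac_chain hz hc]
  congr 1
  rw [jac_eq_det]
  have h1 : (Matrix.of fun a b => pd hz a (Function.update z i g b)) =
      Matrix.updateCol 1 i (fun a => pd hz a g) := by
    ext a b
    rw [Matrix.of_apply, Matrix.updateCol_apply]
    split_ifs with h
    · rw [h, Function.update_self]
    · rw [Function.update_of_ne h, pd_self, Matrix.one_apply]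
  rw [h1, ← Matrix.cramer_apply, Matrix.cramer_one]
  rfl

/-- every derivative costs at most the logarithmic volume of the coordinates -/
theorem der_cost {c : κ → L} (hc : LogBasis k w c) {z : κ → L} (hz : IsTranscendenceBasis k z)
    (i : κ) {P : ℤᵐ⁰} (hP : ∏ j, w (z j) = P * w (z i)) (g : L) :
    w (pd hz i g) * (w (jac hc.tb z) * ∏ j, w (c j)) ≤ w g * P := by
  have h1 := hc.jac_le (Function.update z i g)
  rw [jac_update hz hc.tb i g, map_mul] at h1
  have hzi0 : w (z i) ≠ 0 := by
    rw [Valuation.ne_zero_iff]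
    exact hz.1.ne_zero i
  have h2 : ∏ j, w (Function.update z i g j) = w g * P := by
    have h3 : ∀ u : κ → L, ∏ j, w (u j) = w (u i) * ∏ j ∈ Finset.univ.erase i, w (u j) :=
      fun u => (Finset.mul_prod_erase Finset.univ (fun j => w (u j)) (Finset.mem_univ i)).symm
    rw [h3, Function.update_self]
    congr 1
    rw [h3, mul_comm] at hP
    have h4 := mul_right_cancel₀ hzi0 hP
    rw [← h4]
    refine Finset.prod_congr rfl fun j hj => ?_
    rw [Function.update_of_ne (Finset.ne_of_mem_erase hj)]
  rw [h2] at h1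
  calc _ = w (jac hc.tb z) * w (pd hz i g) * ∏ j, w (c j) := by
        simp only [mul_left_comm, mul_assoc]
    _ ≤ _ := h1

end cost

section star

variable {k Y L ι : Type*} [Field k] [CharZero k] [Field Y] [Field L] [Algebra k Y] [Algebra k L]
  [Algebra Y L]

/-- **Key estimate.**  `D a` are derivations of `L` extending the partial derivations of `Y`, the
coefficients `a' l` are constants for them; each `D a` costs at most `μ`; the Wronskians of order at
most `C` of the `σ l` generate the unit ideal of `A`.  Then `w (∑ a'_l σ_l) ≥ μ ^ C`. -/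
theorem star {x : ι → Y} (hx : IsTranscendenceBasis k x) {A : Subalgebra k Y} {r C : ℕ}
    (hder : ∀ a, ∀ f ∈ A, pd hx a f ∈ A)
    {σ : Fin (r + 1) → Y} (hσ : ∀ l, σ l ∈ A) {s : Finset (Fin (r + 1) → List ι)}
    {g : (Fin (r + 1) → List ι) → Y} (hs : ∀ τ ∈ s, ∀ l, (τ l).length ≤ C)
    (hg : ∀ τ, g τ ∈ A) (h1 : ∑ τ ∈ s, g τ * wron hx σ τ = 1)
    {w : Valuation L ℤᵐ⁰} (hA : ∀ f ∈ A, w (algebraMap Y L f) ≤ 1)
    (D : ι → Derivation k L L) (hD : ∀ a f, D a (algebraMap Y L f) = algebraMap Y L (pd hx a f))
    {μ : ℤᵐ⁰} (hμ : μ ≤ 1) (hcost : ∀ a z, w (D a z) * μ ≤ w z)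
    {a' : Fin (r + 1) → L} (ha' : ∀ b l, D b (a' l) = 0) {l₀ : Fin (r + 1)}
    (hl₀ : w (a' l₀) = 1) : μ ^ C ≤ w (∑ l, a' l * algebraMap Y L (σ l)) := by
  classical
  set S := ∑ l, a' l * algebraMap Y L (σ l) with hS
  -- iterated derivatives
  let W : List ι → L → L := fun α z => α.foldr (fun a z => D a z) z
  have hWcost : ∀ α z, w (W α z) * μ ^ α.length ≤ w z := by
    intro α z
    induction α with
    | nil => simp [W]
    | cons a α ih =>
      change w (D a (W α z)) * μ ^ (α.length + 1) ≤ w z
      calc _ = w (D a (W α z)) * μ * μ ^ α.length := by rw [pow_succ', mul_assoc]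
        _ ≤ w (W α z) * μ ^ α.length := by gcongr; exact hcost _ _
        _ ≤ w z := ih
  have hWS : ∀ α, W α S = ∑ l, a' l * algebraMap Y L (word hx α (σ l)) := by
    intro α
    induction α with
    | nil => rfl
    | cons a α ih =>
      change D a (W α S) = _
      rw [ih, map_sum]
      refine Finset.sum_congr rfl fun l _ => ?_
      rw [Derivation.leibniz, ha', smul_zero, add_zero, smul_eq_mul, hD]
      rfl
  by_contra hcon
  rw [not_le] at hcon
  have hμ0 : μ ≠ 0 ∨ C = 0 := by
    by_contra h
    push Not at h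
    rw [h.1, zero_pow h.2] at hcon
    exact absurd hcon not_lt_zero
  have hsmall : ∀ α : List ι, α.length ≤ C → w (W α S) < 1 := by
    intro α hα
    rcases hμ0 with hμ0 | hC0
    · have hpos : 0 < μ ^ α.length := pow_pos (zero_lt_iff.mpr hμ0) _
      have h2 : w (W α S) * μ ^ α.length < 1 * μ ^ α.length := by
        calc _ ≤ w S := hWcost α S
          _ < μ ^ C := hcon
          _ ≤ μ ^ α.length := pow_le_pow_right_of_le_one' hμ hα
          _ = _ := (one_mul _).symm
      exact lt_of_mul_lt_mul_right h2 hpos.le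
    · subst hC0
      have h0 : α = [] := List.length_eq_zero_iff.mp (Nat.le_zero.mp hα)
      rw [h0]
      rw [pow_zero] at hcon
      exact hcon
  -- Cramer
  have hwron : ∀ τ ∈ s, w (algebraMap Y L (wron hx σ τ)) < 1 := by
    intro τ hτ
    set N : Matrix (Fin (r + 1)) (Fin (r + 1)) L :=
      Matrix.of fun l l' => algebraMap Y L (word hx (τ l) (σ l')) with hN
    have hdet : algebraMap Y L (wron hx σ τ) = N.det := by
      rw [wron, RingHom.map_det]
      rfl
    have hNa : N.mulVec a' = fun l => W (τ l) S := by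
      funext l
      rw [hWS]
      change ∑ l', N l l' * a' l' = _
      refine Finset.sum_congr rfl fun l' _ => ?_
      rw [mul_comm]
      rfl
    have h2 : N.det * a' l₀ = ∑ l, N.adjugate l₀ l * W (τ l) S := by
      have h3 : N.adjugate.mulVec (N.mulVec a') = N.det • a' := by
        rw [Matrix.mulVec_mulVec, Matrix.adjugate_mul, Matrix.smul_mulVec, Matrix.one_mulVec]
      rw [hNa] at h3
      have h4 := congrFun h3 l₀
      rw [Pi.smul_apply, smul_eq_mul] at h4
      rw [← h4]
      rfl
    have hadj : ∀ l, w (N.adjugate l₀ l) ≤ 1 := by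
      intro l
      rw [Matrix.adjugate_apply, Matrix.det_apply]
      refine Valuation.map_sum_le _ fun π _ => ?_
      rw [Units.smul_def, zsmul_eq_mul, map_mul]
      refine mul_le_one' ?_ ?_
      · rcases Int.units_eq_one_or (Equiv.Perm.sign π) with h | h <;> simp [h, Valuation.map_neg]
      rw [map_prod]
      refine Finset.prod_le_one' fun j _ => ?_
      rw [Matrix.updateRow_apply]
      split_ifs
      · rw [Pi.single_apply]
        split_ifs <;> simp
      · exact hA _ (word_mem hder _ (hσ _))
    have h5 : w (N.det * a' l₀) < 1 := by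
      rw [h2]
      refine Valuation.map_sum_lt _ one_ne_zero fun l _ => ?_
      rw [map_mul]
      calc _ ≤ 1 * w (W (τ l) S) := by gcongr; exact hadj l
        _ = w (W (τ l) S) := one_mul _
        _ < 1 := hsmall _ (hs τ hτ l)
    rwa [map_mul, hl₀, mul_one, ← hdet] at h5
  have h6 : w (algebraMap Y L (∑ τ ∈ s, g τ * wron hx σ τ)) < 1 := by
    rw [map_sum]
    refine Valuation.map_sum_lt _ one_ne_zero fun τ hτ => ?_
    rw [map_mul, map_mul]
    calc _ ≤ 1 * w (algebraMap Y L (wron hx σ τ)) := by gcongr; exact hA _ (hg τ)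
      _ = w (algebraMap Y L (wron hx σ τ)) := one_mul _
      _ < 1 := hwron τ hτ
  rw [h1, map_one, map_one] at h6
  exact lt_irrefl _ h6

end star

end Pf72953.Mov
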