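import Mathlib
import Pool.Agent.Lib.Pf72953m.Defs
import Pool.Agent.Lib.Pf72953m.Star
import Pool.Agent.Lib.Pf72953m.Over

/-!
Wronskian certificates for the multiplicities of a moving divisor, and the resulting estimate.
-/

set_option autoImplicit false
set_option linter.style.haveILetI false

open scoped WithZero
open Pf72953

namespace Pf72953.Mov

variable {k Y B L : Type*} [Field k] [CharZero k] [Field Y] [Algebra k Y] [Field B] [Field L]
  [Algebra B L] [Algebra Y L] {M : SmoothModel k Y}

omit [CharZero k] in
/-- on a chart the local equations are regular -/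
theorem MovingDivisor.local_mem (D : MovingDivisor M B L) (i : M.I) (l : Fin (D.r + 1)) :
    D.s l / D.S.gen i ∈ M.A i := by
  obtain ⟨f, hf, h⟩ := D.s_mem l i
  rw [h, mul_div_cancel_right₀ _ (D.S.ne i)]
  exact hf

/-- partial derivatives preserve the coordinate rings -/
theorem SmoothModel.pd_mem (M : SmoothModel k Y) (i : M.I) (a : Fin (dimension k Y)) (f : Y)
    (hf : f ∈ M.A i) : pd (M.tb i) a f ∈ M.A i := by
  refine M.der i _ (fun b => ?_) f hf
  rw [pd_self]
  split_ifs
  · exact (M.A i).one_mem
  · exact (M.A i).zero_mem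

/-- the Wronskians of order at most `C` generate the unit ideal on every chart -/
def Cert (D : MovingDivisor M B L) (C : ℕ) : Prop :=
  ∀ i : M.I, ∃ (s : Finset (Fin (D.r + 1) → List (Fin (dimension k Y))))
    (g : (Fin (D.r + 1) → List (Fin (dimension k Y))) → Y),
      (∀ τ ∈ s, ∀ l, (τ l).length ≤ C) ∧ (∀ τ, g τ ∈ M.A i) ∧
        ∑ τ ∈ s, g τ * wron (M.tb i) (fun l => D.s l / D.S.gen i) τ = 1

theorem Cert.mono {D : MovingDivisor M B L} {C C' : ℕ} (h : Cert D C) (hC : C ≤ C') :
    Cert D C' := by
  intro i
  obtain ⟨s, g, hs, hg, h1⟩ := h i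
  exact ⟨s, g, fun τ hτ l => (hs τ hτ l).trans hC, hg, h1⟩

theorem exists_cert [IsAlgClosed k] (D : MovingDivisor M B L) : ∃ C, Cert D C := by
  classical
  haveI := M.finite
  haveI := Fintype.ofFinite M.I
  have h1 : ∀ i : M.I, ∃ C : ℕ, ∃ (s : Finset (Fin (D.r + 1) → List (Fin (dimension k Y))))
      (g : (Fin (D.r + 1) → List (Fin (dimension k Y))) → Y),
      (∀ τ ∈ s, ∀ l, (τ l).length ≤ C) ∧ (∀ τ, g τ ∈ M.A i) ∧
        ∑ τ ∈ s, g τ * wron (M.tb i) (fun l => D.s l / D.S.gen i) τ = 1 := by
    intro i
    refine exists_mult_bound (M.fg i) (M.mem i) (M.pd_mem i) (D.local_mem i) ?_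
    have h2 : LinearIndependent k (fun l => (D.S.gen i)⁻¹ • D.s l) := by
      have h3 : Function.Injective (LinearMap.mulLeft k ((D.S.gen i)⁻¹)) := by
        intro a b hab
        exact mul_left_cancel₀ (inv_ne_zero (D.S.ne i)) hab
      exact D.s_indep.map' (LinearMap.mulLeft k ((D.S.gen i)⁻¹)) (LinearMap.ker_eq_bot.mpr h3)
    convert h2 using 1
    funext l
    rw [smul_eq_mul, div_eq_inv_mul]
  choose C s g hs hg h1 using h1
  exact ⟨Finset.univ.sup C, fun i => ⟨s i, g i, fun τ hτ l => (hs i τ hτ l).trans
    (Finset.le_sup (Finset.mem_univ i)), hg i, h1 i⟩⟩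

/-- compositions of derivations of `A` in terms of partial derivatives -/
theorem iter_mem_of_words (i : M.I) (P : Ideal (M.A i)) {C : ℕ} {f : Y} (hf : f ∈ M.A i)
    (hP : ∀ α : List (Fin (dimension k Y)), α.length ≤ C →
      (⟨word (M.tb i) α f, word_mem (M.pd_mem i) α hf⟩ : M.A i) ∈ P) :
    ∀ Ds : List (Derivation k Y Y), Ds.length ≤ C → (∀ d ∈ Ds, ∀ f ∈ M.A i, d f ∈ M.A i) →
      ∀ h : iter Ds f ∈ M.A i, (⟨iter Ds f, h⟩ : M.A i) ∈ P := by
  classical
  -- `iter Ds f` is an `A`-combination of words of length at most `Ds.length`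
  have key : ∀ Ds : List (Derivation k Y Y), (∀ d ∈ Ds, ∀ f ∈ M.A i, d f ∈ M.A i) →
      ∃ (s : Finset (List (Fin (dimension k Y)))) (g : List (Fin (dimension k Y)) → Y),
        (∀ α ∈ s, α.length ≤ Ds.length) ∧ (∀ α, g α ∈ M.A i) ∧
          iter Ds f = ∑ α ∈ s, g α * word (M.tb i) α f := by
    intro Ds
    induction Ds with
    | nil =>
      intro _
      exact ⟨{[]}, fun _ => 1, by simp, fun _ => (M.A i).one_mem, by simp [iter]⟩
    | cons d Ds ih =>
      intro hd
      obtain ⟨s, g, hs, hg, h1⟩ := ih (fun d' hd' => hd d' (List.mem_cons_of_mem _ hd'))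
      have hdA : ∀ f ∈ M.A i, d f ∈ M.A i := hd d List.mem_cons_self
      -- `d (g_α D_α f) = d g_α D_α f + ∑_a g_α d (x_a) D_{a α} f`
      have h2 : iter (d :: Ds) f = ∑ α ∈ s, (d (g α) * word (M.tb i) α f +
          ∑ a, g α * d (M.x i a) * word (M.tb i) (a :: α) f) := by
        change d (iter Ds f) = _
        rw [h1, map_sum]
        refine Finset.sum_congr rfl fun α _ => ?_
        rw [Derivation.leibniz, smul_eq_mul, smul_eq_mul, der_eq_sum (M.tb i) d, Finset.mul_sum,
          add_comm, mul_comm (word (M.tb i) α f)]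
        congr 1
        refine Finset.sum_congr rfl fun a _ => ?_
        rw [word_cons]
        ring
      set s' : Finset (List (Fin (dimension k Y))) :=
        s ∪ (s ×ˢ Finset.univ).image (fun p => p.2 :: p.1) with hs'
      set g' : List (Fin (dimension k Y)) → Y := fun β =>
        (if β ∈ s then d (g β) else 0) + (match β with
          | [] => 0
          | a :: α => if α ∈ s then g α * d (M.x i a) else 0) with hg'
      refine ⟨s', g', ?_, ?_, ?_⟩
      · intro β hβ
        rw [hs', Finset.mem_union, Finset.mem_image] at hβ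
        rcases hβ with hβ | ⟨p, hp, rfl⟩
        · exact (hs β hβ).trans (Nat.le_succ _)
        · rw [Finset.mem_product] at hp
          simpa using hs p.1 hp.1
      · intro β
        refine (M.A i).add_mem ?_ ?_
        · split_ifs
          · exact hdA _ (hg β)
          · exact (M.A i).zero_mem
        · rcases β with _ | ⟨a, α⟩
          · exact (M.A i).zero_mem
          · simp only
            split_ifs
            · exact (M.A i).mul_mem (hg α) (hdA _ (M.mem i a))
            · exact (M.A i).zero_mem
      · rw [h2, Finset.sum_add_distrib]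
        simp only [hg', add_mul]
        rw [Finset.sum_add_distrib]
        congr 1
        · rw [← Finset.sum_subset (s₁ := s) (s₂ := s') Finset.subset_union_left]
          · refine Finset.sum_congr rfl fun α hα => ?_
            rw [if_pos hα]
          · intro β _ hβ
            rw [if_neg hβ, zero_mul]
        · rw [← Finset.sum_subset (s₁ := (s ×ˢ Finset.univ).image (fun p => p.2 :: p.1))
            (s₂ := s') Finset.subset_union_right]
          · rw [Finset.sum_image, Finset.sum_product]
            · refine Finset.sum_congr rfl fun α hα => ?_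
              refine Finset.sum_congr rfl fun a _ => ?_
              simp only
              rw [if_pos hα]
            · rintro ⟨α, a⟩ _ ⟨α', a'⟩ _ h
              simp only [List.cons.injEq] at h
              rw [h.1, h.2]
          · intro β _ hβ
            rcases β with _ | ⟨a, α⟩
            · simp
            · simp only
              rw [if_neg, zero_mul]
              intro hα
              apply hβ
              rw [Finset.mem_image]
              exact ⟨(α, a), Finset.mem_product.mpr ⟨hα, Finset.mem_univ a⟩, rfl⟩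
  intro Ds hlen hDs h
  obtain ⟨s, g, hs, hg, h1⟩ := key Ds hDs
  have h2 : (⟨iter Ds f, h⟩ : M.A i) = ∑ α ∈ s, (⟨g α, hg α⟩ : M.A i) *
      ⟨word (M.tb i) α f, word_mem (M.pd_mem i) α hf⟩ := by
    apply Subtype.ext
    change iter Ds f = (M.A i).val _
    rw [h1, map_sum]
    rfl
  rw [h2]
  exact P.sum_mem fun α hα => P.mul_mem_left _ (hP α ((hs α hα).trans hlen))

theorem MovingDivisor.MultLE.cert [IsAlgClosed k] {D : MovingDivisor M B L} {C : ℕ}
    (h : D.MultLE C) : Cert D C := by
  classical
  intro i
  have h0 := exists_minors (hx := M.tb i) (M.fg i) (M.pd_mem i) (D.local_mem i)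
    {α | α.length ≤ C} (by
      intro P hP c hc
      obtain ⟨Ds, hlen, hDs, f, hf, hfeq⟩ := h i P hP c hc
      have hsum : (∑ l, c l • D.s l) / D.S.gen i = ∑ l, c l • (D.s l / D.S.gen i) := by
        rw [Finset.sum_div]
        refine Finset.sum_congr rfl fun l _ => ?_
        rw [smul_div_assoc]
      rw [hsum] at hfeq
      have hmem : ∑ l, c l • (D.s l / D.S.gen i) ∈ M.A i :=
        (M.A i).sum_mem fun l _ => (M.A i).smul_mem (D.local_mem i l) _
      by_contra hcon
      push Not at hcon
      apply hf
      have h2 := iter_mem_of_words i P (C := C) hmem (by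
        intro α hα
        by_contra h3
        exact hcon α hα _ h3 rfl) Ds hlen hDs (by rw [← hfeq]; exact f.2)
      have h4 : f = ⟨iter Ds (∑ l, c l • (D.s l / D.S.gen i)), by rw [← hfeq]; exact f.2⟩ :=
        Subtype.ext hfeq
      rw [h4]
      exact h2)
  exact h0

end Pf72953.Mov
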