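import Mathlib
import Pool.Agent.Lib.Pf72953m.Cert
import Pool.Agent.Lib.Pf72953v.Defs

/-!
The main estimate for forms with poles along moving divisors.
-/

set_option autoImplicit false
set_option linter.style.haveILetI false

open scoped WithZero
open Pf72953 Pf72953.Var

namespace Pf72953.Mov

section rel

variable {k B Y L ιB : Type*} [Field k] [CharZero k] [Field B] [Field Y] [Field L] [Algebra k B]
  [Algebra k Y] [Algebra k L] [Algebra B L] [Algebra Y L] [IsScalarTower k B L]
  [IsScalarTower k Y L] [Fintype ιB] [DecidableEq ιB] {M : SmoothModel k Y}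

/-- the family `(c_B, x_i)` of `L` -/
def zfam (M : SmoothModel k Y) (i : M.I) (cB : ιB → B) : ιB ⊕ Fin (dimension k Y) → L :=
  Sum.elim (fun j => algebraMap B L (cB j)) (fun a => algebraMap Y L (M.x i a))

/-- the relative logarithmic volume of the coordinates of the chart `i` -/
noncomputable def relvol (M : SmoothModel k Y) (i : M.I) (cB : ιB → B) {w : Valuation L ℤᵐ⁰}
    {c : ιB ⊕ Fin (dimension k Y) → L} (hc : LogBasis k w c) : ℤᵐ⁰ :=
  w (jac hc.tb (zfam M i cB)) * (∏ j, w (c j)) * (∏ j, w (algebraMap B L (cB j)))⁻¹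

omit [CharZero k] [Algebra k B] [Algebra k L] [IsScalarTower k B L] [IsScalarTower k Y L]
  [DecidableEq ιB] in
theorem prod_zfam (i : M.I) (cB : ιB → B) (w : Valuation L ℤᵐ⁰) :
    ∏ j, w (zfam (L := L) M i cB j) =
      (∏ j, w (algebraMap B L (cB j))) * ∏ a, w (algebraMap Y L (M.x i a)) := by
  rw [Fintype.prod_sum_type]
  rfl

omit [CharZero k] [Algebra k L] [IsScalarTower k B L] [DecidableEq ιB] in
theorem prod_cB_ne_zero {cB : ιB → B} (hcB : IsTranscendenceBasis k cB) (w : Valuation L ℤᵐ⁰) :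
    ∏ j, w (algebraMap B L (cB j)) ≠ 0 := by
  refine Finset.prod_ne_zero_iff.mpr fun j _ => ?_
  rw [Valuation.ne_zero_iff]
  simpa using hcB.1.ne_zero j

omit [IsScalarTower k B L] [IsScalarTower k Y L] in
theorem relvol_le_one {i : M.I} {cB : ιB → B} (hcB : IsTranscendenceBasis k cB)
    {w : Valuation L ℤᵐ⁰} (hA : ∀ f ∈ M.A i, w (algebraMap Y L f) ≤ 1)
    {c : ιB ⊕ Fin (dimension k Y) → L} (hc : LogBasis k w c) : relvol M i cB hc ≤ 1 := by
  have h1 := hc.jac_le (zfam M i cB)
  rw [prod_zfam] at h1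
  have h2 : ∏ a, w (algebraMap Y L (M.x i a)) ≤ 1 :=
    Finset.prod_le_one' fun a _ => hA _ (M.mem i a)
  have h3 := prod_cB_ne_zero hcB w
  rw [relvol]
  calc _ ≤ ((∏ j, w (algebraMap B L (cB j))) * ∏ a, w (algebraMap Y L (M.x i a))) *
        (∏ j, w (algebraMap B L (cB j)))⁻¹ := by gcongr
    _ ≤ ((∏ j, w (algebraMap B L (cB j))) * 1) * (∏ j, w (algebraMap B L (cB j)))⁻¹ := by gcongr
    _ = 1 := by rw [mul_one, mul_inv_cancel₀ h3]

omit [IsScalarTower k B L] [IsScalarTower k Y L] in
theorem rel_cost {i : M.I} {cB : ιB → B} (hcB : IsTranscendenceBasis k cB)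
    (hz : IsTranscendenceBasis k (zfam (L := L) M i cB))
    {w : Valuation L ℤᵐ⁰} (hA : ∀ f ∈ M.A i, w (algebraMap Y L f) ≤ 1)
    {c : ιB ⊕ Fin (dimension k Y) → L} (hc : LogBasis k w c) (a : Fin (dimension k Y)) (g : L) :
    w (pd hz (Sum.inr a) g) * relvol M i cB hc ≤ w g := by
  classical
  have h3 := prod_cB_ne_zero hcB w
  have h1 := der_cost hc hz (Sum.inr a)
    (P := (∏ j, w (algebraMap B L (cB j))) *
      ∏ b ∈ Finset.univ.erase a, w (algebraMap Y L (M.x i b))) (by
      rw [prod_zfam, ← Finset.mul_prod_erase Finset.univ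
        (fun b => w (algebraMap Y L (M.x i b))) (Finset.mem_univ a)]
      change _ = _ * w (algebraMap Y L (M.x i a))
      simp only [mul_comm, mul_left_comm]) g
  have h2 : ∏ b ∈ Finset.univ.erase a, w (algebraMap Y L (M.x i b)) ≤ 1 :=
    Finset.prod_le_one' fun b _ => hA _ (M.mem i b)
  rw [relvol]
  calc _ = w (pd hz (Sum.inr a) g) * (w (jac hc.tb (zfam M i cB)) * ∏ j, w (c j)) *
        (∏ j, w (algebraMap B L (cB j)))⁻¹ := by simp only [mul_assoc]
    _ ≤ (w g * ((∏ j, w (algebraMap B L (cB j))) *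
      ∏ b ∈ Finset.univ.erase a, w (algebraMap Y L (M.x i b)))) *
        (∏ j, w (algebraMap B L (cB j)))⁻¹ := by gcongr
    _ ≤ (w g * ((∏ j, w (algebraMap B L (cB j))) * 1)) *
        (∏ j, w (algebraMap B L (cB j)))⁻¹ := by gcongr
    _ = w g := by rw [mul_one, mul_assoc, mul_inv_cancel₀ h3, mul_one]

/-- the estimate for a moving divisor -/
theorem sec_bound (D : MovingDivisor M B L) {C : ℕ} (hC : Cert D C) {i : M.I} {cB : ιB → B}
    (hcB : IsTranscendenceBasis k cB) (hz : IsTranscendenceBasis k (zfam (L := L) M i cB))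
    {w : Valuation L ℤᵐ⁰} (hA : ∀ f ∈ M.A i, w (algebraMap Y L f) ≤ 1)
    {c : ιB ⊕ Fin (dimension k Y) → L} (hc : LogBasis k w c) {l₀ : Fin (D.r + 1)}
    (hl₀ : ∀ l, w (D.a l) ≤ w (D.a l₀)) :
    relvol M i cB hc ^ C * (w (D.a l₀) * w (algebraMap Y L (D.S.gen i))) ≤ w D.sec := by
  classical
  haveI : CharZero B := charZero_of_injective_algebraMap (algebraMap k B).injective
  have ha0 : D.a l₀ ≠ 0 := by
    obtain ⟨l, hl⟩ := D.a_ne
    intro h0
    have h1 := hl₀ l
    rw [h0, map_zero, le_zero_iff, map_eq_zero] at h1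
    exact hl h1
  have hg0 : algebraMap Y L (D.S.gen i) ≠ 0 := by simpa using D.S.ne i
  obtain ⟨s, g, hs, hg, h1⟩ := hC i
  set a' : Fin (D.r + 1) → L := fun l => D.a l / D.a l₀ with ha'
  have hkill : ∀ b (β : B), pd hz (Sum.inr b) (algebraMap B L β) = 0 := fun b β =>
    pd_algebraMap_of_notMem hcB hz Sum.inl (fun _ => rfl) (Sum.inr b) (fun _ h => by cases h) β
  have halg : ∀ l, IsAlgebraic B (a' l) := fun l => by
    rw [ha']
    simp only [div_eq_mul_inv]
    exact (D.a_alg l).mul (D.a_alg l₀).inv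
  have hstar := star (M.tb i) (M.pd_mem i) (D.local_mem i) hs hg h1 hA
    (fun b => pd hz (Sum.inr b))
    (fun b f => pd_algebraMap (M.tb i) hz Sum.inr Sum.inr_injective (fun _ => rfl) b f)
    (relvol_le_one hcB hA hc) (fun b z => rel_cost hcB hz hA hc b z)
    (a' := a') (fun b l => der_eq_zero_of_isAlgebraic
      (derOver (pd hz (Sum.inr b)) (hkill b)) (halg l))
    (l₀ := l₀) (by rw [ha']; simp only; rw [div_self ha0, map_one])
  have hsec : D.sec = (∑ l, a' l * algebraMap Y L (D.s l / D.S.gen i)) *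
      (D.a l₀ * algebraMap Y L (D.S.gen i)) := by
    rw [MovingDivisor.sec, Finset.sum_mul]
    refine Finset.sum_congr rfl fun l _ => ?_
    rw [ha', map_div₀]
    field_simp
  rw [hsec, map_mul, map_mul]
  gcongr

theorem sec_ne_zero (D : MovingDivisor M B L) [IsAlgClosed k] [Nonempty M.I]
    (hBY : ∀ {x : ιB → B} {y : Fin (dimension k Y) → Y}, IsTranscendenceBasis k x →
      IsTranscendenceBasis k y → IsTranscendenceBasis k
        (Sum.elim (fun i => algebraMap B L (x i)) (fun j => algebraMap Y L (y j))))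
    {x : ιB → B} (hx : IsTranscendenceBasis k x) : D.sec ≠ 0 := by
  classical
  obtain ⟨C, hC⟩ := exists_cert D
  obtain ⟨i⟩ := ‹Nonempty M.I›
  obtain ⟨l₀, hl₀⟩ := D.a_ne
  have hone : ∀ z : L, (1 : Valuation L ℤᵐ⁰) z ≤ 1 := fun z => by
    rcases eq_or_ne z 0 with rfl | hz
    · simp
    · rw [Valuation.one_apply_of_ne_zero hz]
  have htriv : ∀ z : L, z ≠ 0 → (1 : Valuation L ℤᵐ⁰) z = 1 := fun z hz =>
    Valuation.one_apply_of_ne_zero hz
  have hz : IsTranscendenceBasis k (zfam (L := L) M i x) := hBY hx (M.tb i)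
  have hc : LogBasis k (1 : Valuation L ℤᵐ⁰) (zfam (L := L) M i x) :=
    LogBasis.of_trivial htriv hz
  have h1 := sec_bound D hC hx hz (w := 1) (fun f _ => hone _) hc (l₀ := l₀) (fun l => by
    rw [htriv _ hl₀]; exact hone _)
  intro h0
  rw [h0, map_zero, le_zero_iff] at h1
  have h2 : relvol M i x hc ≠ 0 := by
    rw [relvol]
    refine mul_ne_zero (mul_ne_zero ?_ ?_) (inv_ne_zero (prod_cB_ne_zero hx _))
    · rw [jac_self, map_one]
      exact one_ne_zero
    · refine Finset.prod_ne_zero_iff.mpr fun j _ => ?_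
      rw [Valuation.ne_zero_iff]
      exact hz.1.ne_zero j
  have h3 : (1 : Valuation L ℤᵐ⁰) (D.a l₀) ≠ 0 := by
    rw [htriv _ hl₀]
    exact one_ne_zero
  have h4 : (1 : Valuation L ℤᵐ⁰) (algebraMap Y L (D.S.gen i)) ≠ 0 := by
    rw [htriv _ (by simpa using D.S.ne i)]
    exact one_ne_zero
  exact mul_ne_zero (pow_ne_zero _ h2) (mul_ne_zero h3 h4) h1

end rel

section main

variable {k B Y E L ιB J : Type*} [Field k] [CharZero k] [IsAlgClosed k] [Field B] [Field Y]
  [Field E] [Field L]
  [Algebra k B] [Algebra k Y] [Algebra k E] [Algebra k L] [Algebra B E] [Algebra B L]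
  [Algebra E L] [Algebra Y L] [IsScalarTower k B L] [IsScalarTower k Y L]
  [IsScalarTower k E L] [IsScalarTower B E L] [Fintype ιB] [DecidableEq ιB] [Fintype J]
  [Algebra.EssFiniteType k B] [Algebra.EssFiniteType k Y] [Algebra.EssFiniteType k E]
  [Algebra.EssFiniteType k L] [FiniteDimensional E L] {M : SmoothModel k Y}

/-- a numerator: a product of `q` coefficients of the moving divisor -/
def Num (D : MovingDivisor M B L) (q : ℕ) : Set L :=
  {b | ∀ (w : Valuation L ℤᵐ⁰) (l₀ : Fin (D.r + 1)), (∀ l, w (D.a l) ≤ w (D.a l₀)) →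
    w b ≤ w (D.a l₀) ^ q}

/-- the coefficients of the sections of `m K + ∑ q_j S_j` with respect to the basis `y` -/
def CoefSec (M : SmoothModel k Y) (S : J → LineBundle M) (y : Fin (dimension k Y) → Y) (m : ℕ)
    (q : J → ℕ) : Set Y :=
  {g | ∀ i, ∃ f ∈ M.A i, g * jac (M.tb i) y ^ m = f * ∏ j, (S j).gen i ^ q j}

/-- **Main estimate.** -/
theorem mem_GoodL {x : ιB → B} (hx : IsTranscendenceBasis k x) {y : Fin (dimension k Y) → Y}
    (hy : IsTranscendenceBasis k y)
    (hBY : ∀ {x : ιB → B} {y : Fin (dimension k Y) → Y}, IsTranscendenceBasis k x →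
      IsTranscendenceBasis k y → IsTranscendenceBasis k
        (Sum.elim (fun i => algebraMap B L (x i)) (fun j => algebraMap Y L (y j))))
    (hunr : Unramified k B E L) (D : J → MovingDivisor M B L) (hram : ∀ j, (D j).Ramified)
    {C : J → ℕ} (hC : ∀ j, Cert (D j) (C j)) {m : ℕ} {q : J → ℕ} (hq : 2 * ∑ j, C j * q j ≤ m)
    {h : B} (hh : h ∈ WOrb k E x m) {g : Y} (hg : g ∈ CoefSec M (fun j => (D j).S) y m q)
    {b : J → L} (hb : ∀ j, b j ∈ Num (D j) (q j)) :
    algebraMap B L h * algebraMap Y L g * ∏ j, b j / (D j).sec ^ q j ∈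
      GoodL k E (Sum.elim (fun i => algebraMap B L (x i)) (fun j => algebraMap Y L (y j))) m := by
  classical
  intro w hv c t hc ht htb
  have hcardL : Fintype.card (ιB ⊕ Fin (dimension k Y)) = dimension k L :=
    card_eq_of_isTranscendenceBasis htb
  have htbE : IsTranscendenceBasis k c := IsTranscendenceBasis.of_comp_algebraMap htb
  have hcardE : Fintype.card (ιB ⊕ Fin (dimension k Y)) = dimension k E :=
    card_eq_of_isTranscendenceBasis htbE
  have hwL : IsDivisorial k L w := IsDivisorial.of_comap (hcardL.symm.trans hcardE) hv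
  have hcL : Adapted k w (fun i => algebraMap E L (c i)) (algebraMap E L t) := hc.map
  have hwt : w (algebraMap E L t) ≠ 0 := by
    rw [Valuation.ne_zero_iff]; simpa using ht.ne_zero
  have hwtpos : 0 < w (algebraMap E L t) := zero_lt_iff.mpr hwt
  have hlog := hcL.logBasis hcardL
  -- the chart
  obtain ⟨i, hi⟩ := M.cover (w.comap (algebraMap Y L)) (fun κ hκ => by
    rw [Valuation.comap_apply, ← IsScalarTower.algebraMap_apply k Y L]
    exact hwL.const κ hκ)
  have hA : ∀ f ∈ M.A i, w (algebraMap Y L f) ≤ 1 := hi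
  haveI : Nonempty M.I := ⟨i⟩
  have hsec0 : ∀ j, (D j).sec ≠ 0 := fun j => sec_ne_zero (D j) hBY hx
  have hwsec : ∀ j, w (D j).sec ≠ 0 := fun j => (Valuation.ne_zero_iff w).mpr (hsec0 j)
  -- the maximal coefficients
  have hmax : ∀ j, ∃ l₀, ∀ l, w ((D j).a l) ≤ w ((D j).a l₀) := fun j => by
    obtain ⟨l₀, -, hl₀⟩ := Finset.exists_max_image Finset.univ (fun l => w ((D j).a l))
      Finset.univ_nonempty
    exact ⟨l₀, fun l => hl₀ l (Finset.mem_univ l)⟩
  choose l₀ hl₀ using hmax
  have hal₀ : ∀ j, w ((D j).a (l₀ j)) ≠ 0 := fun j => by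
    obtain ⟨l, hl⟩ := (D j).a_ne
    intro h0
    have h1 := hl₀ j l
    rw [h0, le_zero_iff, map_eq_zero] at h1
    exact hl h1
  have hgen : ∀ j, w (algebraMap Y L ((D j).S.gen i)) ≠ 0 := fun j => by
    rw [Valuation.ne_zero_iff]
    simpa using (D j).S.ne i
  obtain ⟨f, hf, hgf⟩ := hg i
  have hwf := hA f hf
  have hgf' : w (algebraMap Y L g) * w (algebraMap Y L (jac (M.tb i) y)) ^ m ≤
      ∏ j, w (algebraMap Y L ((D j).S.gen i)) ^ q j := by
    rw [← map_pow, ← map_pow, ← map_mul, ← map_mul, hgf, map_mul, map_mul, map_prod, map_prod]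
    simp only [map_pow]
    exact mul_le_of_le_one_left' hwf
  have hchain : ∀ {cB : ιB → B} (hcB : IsTranscendenceBasis k cB),
      jac htb (Sum.elim (fun i => algebraMap B L (x i)) (fun j => algebraMap Y L (y j))) =
        jac htb (zfam M i cB) * (algebraMap B L (jac hcB x) * algebraMap Y L (jac (M.tb i) y)) := by
    intro cB hcB
    have hz : IsTranscendenceBasis k (zfam (L := L) M i cB) := hBY hcB (M.tb i)
    rw [jac_chain hz htb]
    congr 1
    exact jac_sum hcB (M.tb i) hz x y
  -- the logarithmic step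
  have key : ∀ {cB : ιB → B} (hcB : IsTranscendenceBasis k cB) {α : ℤᵐ⁰},
      w (algebraMap B L h) * (w (algebraMap B L (jac hcB x)) *
        ∏ j, w (algebraMap B L (cB j))) ^ m ≤ α →
      α * relvol M i cB hlog ^ (m - ∑ j, C j * q j) ≤ w (algebraMap E L t) ^ m →
      w (algebraMap B L h * algebraMap Y L g * ∏ j, b j / (D j).sec ^ q j) *
        w (jac htb (Sum.elim (fun i => algebraMap B L (x i)) (fun j => algebraMap Y L (y j)))) ^ m
        ≤ 1 := by
    intro cB hcB α h1 h2
    have hz : IsTranscendenceBasis k (zfam (L := L) M i cB) := hBY hcB (M.tb i)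
    set μ := relvol M i cB hlog with hμ
    set P := ∏ j, w (algebraMap B L (cB j)) with hP
    have hP0 : P ≠ 0 := prod_cB_ne_zero hcB w
    have hsec : ∀ j, w (b j / (D j).sec ^ q j) * μ ^ (C j * q j) *
        w (algebraMap Y L ((D j).S.gen i)) ^ q j ≤ 1 := by
      intro j
      have h3 := sec_bound (D j) (hC j) hcB hz hA hlog (hl₀ j)
      have h4 := hb j w (l₀ j) (hl₀ j)
      have h5 : 0 < w (D j).sec ^ q j := pow_pos (zero_lt_iff.mpr (hwsec j)) _
      rw [map_div₀, map_pow, div_mul_eq_mul_div, div_mul_eq_mul_div, div_le_one₀ h5]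
      calc w (b j) * μ ^ (C j * q j) * w (algebraMap Y L ((D j).S.gen i)) ^ q j
          ≤ w ((D j).a (l₀ j)) ^ q j * μ ^ (C j * q j) *
            w (algebraMap Y L ((D j).S.gen i)) ^ q j := by gcongr
        _ = (μ ^ C j * (w ((D j).a (l₀ j)) * w (algebraMap Y L ((D j).S.gen i)))) ^ q j := by
          rw [mul_pow, mul_pow, pow_mul]
          simp only [mul_comm, mul_left_comm, mul_assoc]
        _ ≤ w (D j).sec ^ q j := pow_le_pow_left' h3 _
    have hle : ∑ j, C j * q j ≤ m := by omega
    have hμm : μ ^ m = μ ^ (m - ∑ j, C j * q j) * ∏ j, μ ^ (C j * q j) := by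
      rw [Finset.prod_pow_eq_pow_sum, ← pow_add]
      congr 1
      omega
    have hvol : w (jac htb (zfam M i cB)) * w (algebraMap E L t) = μ * P := by
      rw [hμ, relvol, hcL.prod, mul_assoc, mul_assoc, inv_mul_cancel₀ hP0, mul_one]
    have hpos : 0 < w (algebraMap E L t) ^ m := pow_pos hwtpos m
    refine le_of_mul_le_mul_right (a := w (algebraMap E L t) ^ m) ?_ hpos
    rw [one_mul, hchain hcB]
    calc _ = w (algebraMap B L h) * w (algebraMap Y L g) * (∏ j, w (b j / (D j).sec ^ q j)) *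
          ((w (jac htb (zfam M i cB)) * w (algebraMap E L t)) *
            (w (algebraMap B L (jac hcB x)) * w (algebraMap Y L (jac (M.tb i) y)))) ^ m := by
          rw [map_mul, map_mul, map_prod, map_mul, map_mul]
          simp only [mul_pow, mul_comm, mul_left_comm, mul_assoc]
      _ = (w (algebraMap B L h) * (w (algebraMap B L (jac hcB x)) * P) ^ m) *
          (w (algebraMap Y L g) * w (algebraMap Y L (jac (M.tb i) y)) ^ m) *
          ((∏ j, w (b j / (D j).sec ^ q j)) * ∏ j, μ ^ (C j * q j)) *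
          μ ^ (m - ∑ j, C j * q j) := by
          rw [hvol, mul_pow, mul_pow, mul_pow, mul_pow, hμm]
          simp only [mul_comm, mul_left_comm, mul_assoc]
      _ ≤ α * (∏ j, w (algebraMap Y L ((D j).S.gen i)) ^ q j) *
          ((∏ j, w (b j / (D j).sec ^ q j)) * ∏ j, μ ^ (C j * q j)) *
          μ ^ (m - ∑ j, C j * q j) := by gcongr
      _ = (∏ j, w (b j / (D j).sec ^ q j) * μ ^ (C j * q j) *
          w (algebraMap Y L ((D j).S.gen i)) ^ q j) * (α * μ ^ (m - ∑ j, C j * q j)) := by
          rw [Finset.prod_mul_distrib, Finset.prod_mul_distrib]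
          simp only [mul_comm, mul_left_comm, mul_assoc]
      _ ≤ 1 * (w (algebraMap E L t) ^ m) := by
          gcongr
          exact Finset.prod_le_one' fun j _ => hsec j
      _ = _ := one_mul _
  by_cases hnt : ∃ a : B, a ≠ 0 ∧ w (algebraMap B L a) ≠ 1
  · -- `w` nontrivial on `B`
    obtain ⟨cB, hcB', hbB'⟩ := hh (w.comap (algebraMap E L)) hv (by
      obtain ⟨a, ha0, ha⟩ := hnt
      refine ⟨a, ha0, ?_⟩
      rwa [Valuation.comap_apply, ← IsScalarTower.algebraMap_apply]) t ht
    have hbB : w (algebraMap B L h) * (w (algebraMap B L (jac hcB'.tb x)) *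
        ∏ i, w (algebraMap B L (cB i))) ^ m ≤ w (algebraMap E L t) ^ m := by
      simp only [Valuation.comap_apply, ← IsScalarTower.algebraMap_apply B E L] at hbB'
      exact hbB'
    refine key hcB'.tb hbB ?_
    exact mul_le_of_le_one_right' (pow_le_one' (relvol_le_one hcB'.tb hA hlog) _)
  · -- `w` trivial on `B`
    push Not at hnt
    have hunif : IsUnif w (algebraMap E L t) := by
      refine ⟨by simpa using ht.ne_zero, ht.lt_one, fun z hz => ?_⟩
      obtain ⟨t', ht', hzt'⟩ := hunr w hwL hnt z hz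
      exact hzt'.trans (ht.le t' ht')
    have hreg := hcL.regBasis hcardL hunif
    have hone : ∀ a : B, w (algebraMap B L a) ≤ 1 := by
      intro a
      rcases eq_or_ne a 0 with rfl | ha
      · simp
      · exact (hnt a ha).le
    have hPone : ∏ j, w (algebraMap B L (x j)) = 1 :=
      Finset.prod_eq_one fun j _ => hnt _ (hx.1.ne_zero j)
    have hzle : w (jac htb (zfam M i x)) ≤ 1 := hreg.jac_le _ (by
      rintro (j | a)
      · exact hone _
      · exact hA _ (M.mem i a))
    by_cases hlt : ∃ j, w (D j).sec < w (algebraMap Y L ((D j).S.gen i))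
    · -- on one of the divisors
      obtain ⟨j, hj⟩ := hlt
      have h1 : w (jac htb (zfam M i x)) < 1 := by
        have hz : IsTranscendenceBasis k (zfam (L := L) M i x) := hBY hx (M.tb i)
        exact jac_lt_one hx (ξ := fun a => algebraMap Y L (M.x i a)) hz hwL hnt
          (fun d hd => hram j w hwL hnt i hA hj d hd) hreg
      have h2 := hunif.le _ h1
      have h3 : relvol M i x hlog ≤ w (algebraMap E L t) ^ 2 := by
        rw [relvol, hPone, inv_one, mul_one, hcL.prod, pow_two]
        gcongr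
      refine key hx (α := 1) ?_ ?_
      · rw [jac_self, map_one, map_one, one_mul, hPone, one_pow, mul_one]
        exact hone h
      · rw [one_mul]
        calc _ ≤ (w (algebraMap E L t) ^ 2) ^ (m - ∑ j, C j * q j) := by gcongr
          _ = w (algebraMap E L t) ^ (2 * (m - ∑ j, C j * q j)) := by rw [← pow_mul]
          _ ≤ w (algebraMap E L t) ^ m :=
            pow_le_pow_right_of_le_one' hunif.lt_one.le (by omega)
    · -- off the divisors
      push Not at hlt
      have haone : ∀ j l, w ((D j).a l) ≤ 1 := fun j l => by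
        rcases eq_or_ne ((D j).a l) 0 with h0 | h0
        · rw [h0]; simp
        · exact (val_eq_one_of_isIntegral hnt h0 ((D j).a_alg l).isIntegral).le
      have hsec : ∀ j, w (b j / (D j).sec ^ q j) *
          w (algebraMap Y L ((D j).S.gen i)) ^ q j ≤ 1 := by
        intro j
        have h4 := hb j w (l₀ j) (hl₀ j)
        have h5 : 0 < w (D j).sec ^ q j := pow_pos (zero_lt_iff.mpr (hwsec j)) _
        rw [map_div₀, map_pow, div_mul_eq_mul_div, div_le_one₀ h5]
        calc w (b j) * w (algebraMap Y L ((D j).S.gen i)) ^ q j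
            ≤ w ((D j).a (l₀ j)) ^ q j * w (D j).sec ^ q j := by
              gcongr
              exact hlt j
          _ ≤ 1 * w (D j).sec ^ q j := by
              gcongr
              exact pow_le_one' (haone j _) _
          _ = _ := one_mul _
      rw [hchain hx]
      calc _ = w (algebraMap B L h) * w (algebraMap Y L g) * (∏ j, w (b j / (D j).sec ^ q j)) *
            (w (jac htb (zfam M i x)) * w (algebraMap Y L (jac (M.tb i) y))) ^ m := by
            rw [jac_self, map_one, one_mul, map_mul, map_mul, map_prod, map_mul]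
        _ = w (algebraMap B L h) * w (jac htb (zfam M i x)) ^ m *
            (w (algebraMap Y L g) * w (algebraMap Y L (jac (M.tb i) y)) ^ m) *
            ∏ j, w (b j / (D j).sec ^ q j) := by
            rw [mul_pow]
            simp only [mul_comm, mul_left_comm, mul_assoc]
        _ ≤ 1 * 1 * (∏ j, w (algebraMap Y L ((D j).S.gen i)) ^ q j) *
            ∏ j, w (b j / (D j).sec ^ q j) := by
            gcongr
            · exact hone h
            · exact pow_le_one' hzle m
        _ = ∏ j, w (b j / (D j).sec ^ q j) * w (algebraMap Y L ((D j).S.gen i)) ^ q j := by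
            rw [one_mul, one_mul, Finset.prod_mul_distrib, mul_comm]
        _ ≤ 1 := Finset.prod_le_one' fun j _ => hsec j

end main

end Pf72953.Mov
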