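import Mathlib
import Pool.Agent.Lib.Pf72953.Orb
import Pool.Agent.Lib.Pf72953v.CoreAbs
import Pool.Agent.Lib.Pf72953v.Indep
import Pool.Agent.Lib.Pf72953m.Est

/-!
Assembly: the Kodaira dimension of the total space.
-/

set_option autoImplicit false
set_option linter.style.haveILetI false

open scoped WithZero
open Pf72953 Pf72953.Var

namespace Pf72953.Mov

section coef

variable {k Y J : Type*} [Field k] [CharZero k] [Field Y] [Algebra k Y] [Fintype J]
  {M : SmoothModel k Y} {S : J → LineBundle M} {y : Fin (dimension k Y) → Y}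

theorem mem_pluriSections_iff (hy : IsTranscendenceBasis k y) {m : ℕ} {q : J → ℕ}
    (ω : PluriForm k Y (dimension k Y) m) :
    ω ∈ pluriSections M S m q ↔ coef hy m ω ∈ CoefSec M S y m q := by
  constructor
  · intro h i
    obtain ⟨f, hf, hω⟩ := h i
    refine ⟨f, hf, ?_⟩
    rw [← coef_chain hy (M.tb i) m ω]
    conv_lhs => rw [hω]
    rw [map_smul, coef_self, smul_eq_mul, mul_one]
  · intro h i
    obtain ⟨f, hf, hω⟩ := h i
    refine ⟨f, hf, ?_⟩
    rw [← coef_chain hy (M.tb i) m ω] at hω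
    rw [← hω]
    exact eq_coef_smul (M.tb i) m ω

theorem CoefSec.mul {m m' : ℕ} {q q' : J → ℕ} {g g' : Y} (hg : g ∈ CoefSec M S y m q)
    (hg' : g' ∈ CoefSec M S y m' q') : g * g' ∈ CoefSec M S y (m + m') (fun j => q j + q' j) := by
  intro i
  obtain ⟨f, hf, h⟩ := hg i
  obtain ⟨f', hf', h'⟩ := hg' i
  refine ⟨f * f', (M.A i).mul_mem hf hf', ?_⟩
  simp only [pow_add, Finset.prod_mul_distrib]
  calc _ = (g * jac (M.tb i) y ^ m) * (g' * jac (M.tb i) y ^ m') := by ring
    _ = _ := by rw [h, h']; ring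

theorem CoefSec.one : (1 : Y) ∈ CoefSec M S y 0 (fun _ => 0) := fun i =>
  ⟨1, (M.A i).one_mem, by simp⟩

theorem CoefSec.pow {m : ℕ} {q : J → ℕ} {g : Y} (hg : g ∈ CoefSec M S y m q) (N : ℕ) :
    g ^ N ∈ CoefSec M S y (N * m) (fun j => N * q j) := by
  induction N with
  | zero => simpa using CoefSec.one (M := M) (S := S) (y := y)
  | succ N ih =>
    have := CoefSec.mul ih hg
    have h3 : (fun j => N * q j + q j) = fun j => (N + 1) * q j := by
      funext j; ring
    have h4 : N * m + m = (N + 1) * m := by ring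
    rw [h3, h4, ← pow_succ] at this
    exact this

end coef

section num

variable {k Y B L : Type*} [Field k] [Field Y] [Algebra k Y] [Field B] [Field L]
  [Algebra B L] [Algebra Y L] {M : SmoothModel k Y} {D : MovingDivisor M B L}

theorem Num.coeff (l : Fin (D.r + 1)) : D.a l ∈ Num D 1 := fun w l₀ h => by
  rw [pow_one]
  exact h l

theorem Num.one : (1 : L) ∈ Num D 0 := fun w l₀ _ => by
  rw [map_one, pow_zero]

theorem Num.mul {p q : ℕ} {b c : L} (hb : b ∈ Num D p) (hc : c ∈ Num D q) :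
    b * c ∈ Num D (p + q) := fun w l₀ h => by
  rw [map_mul, pow_add]
  exact mul_le_mul' (hb w l₀ h) (hc w l₀ h)

theorem Num.pow {p : ℕ} {b : L} (hb : b ∈ Num D p) (q : ℕ) : b ^ q ∈ Num D (p * q) :=
  fun w l₀ h => by
  rw [map_pow, pow_mul]
  exact pow_le_pow_left' (hb w l₀ h) q

end num

section core

variable {k B Y E L J : Type*} [Field k] [CharZero k] [IsAlgClosed k] [Field B] [Field Y]
  [Field E] [Field L]
  [Algebra k B] [Algebra k Y] [Algebra k E] [Algebra k L] [Algebra B E] [Algebra B L]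
  [Algebra E L] [Algebra Y L] [IsScalarTower k B L] [IsScalarTower k Y L]
  [IsScalarTower k E L] [IsScalarTower B E L] [Fintype J]
  [Algebra.EssFiniteType k B] [Algebra.EssFiniteType k Y] [Algebra.EssFiniteType k E]
  [FiniteDimensional E L] [IsGalois E L] {M : SmoothModel k Y}

/-- `K + ∑ c_j S_j` is `ℚ`-effective for some `c_j ≥ 0` with `2 ∑ c_j C_j < 1`, `C_j` a bound for the
multiplicities of the members of the `j`-th linear system; for instance `κ(M) ≥ 0`. -/
def Positive (D : J → MovingDivisor M B L) : Prop :=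
  ∃ (m : ℕ) (q C : J → ℕ), 2 * ∑ j, C j * q j < m ∧ (∀ j, q j ≠ 0 → (D j).MultLE (C j)) ∧
    ∃ ω ∈ pluriSections M (fun j => (D j).S) m q, ω ≠ 0

theorem core (hdim : dimension k B + dimension k Y = dimension k E)
    (halg : ∀ a : L, IsAlgebraic (Algebra.adjoin k
      (Set.range (algebraMap B L) ∪ Set.range (algebraMap Y L))) a)
    (hunr : Unramified k B E L) (D : J → MovingDivisor M B L) (hram : ∀ j, (D j).Ramified)
    (hpos : Positive D) {x : Fin (dimension k B) → B} (hx : IsTranscendenceBasis k x) {m₁ : ℕ}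
    (hm₁ : 1 ≤ m₁) {h₀ : B} (hh₀ : h₀ ∈ WOrb k E x m₁) (hh₀ne : h₀ ≠ 0) {a b : ℕ}
    {ξ : Fin a → L} (hξ : AlgebraicIndependent k ξ)
    (hξ' : ∀ i, (∃ f : B, ξ i = algebraMap B L f ∧ f * h₀ ∈ WOrb k E x m₁) ∨
      ∃ j, ξ i ∈ (D j).ratios)
    (hb : LogKodairaGE M (fun j => (D j).S) b) : KodairaGE k E (a + b) := by
  classical
  haveI : Algebra.EssFiniteType k L := Algebra.EssFiniteType.comp k E L
  obtain ⟨y, hy⟩ := exists_tb k Y
  obtain ⟨zE, hzE⟩ := exists_tb k E
  have hdimL : dimension k E = dimension k L := by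
    have h1 : IsTranscendenceBasis k (algebraMap E L ∘ zE) := hzE.algebraMap_comp
    have h2 := card_eq_of_isTranscendenceBasis h1
    rwa [Fintype.card_fin] at h2
  have hBY : ∀ {x : Fin (dimension k B) → B} {y : Fin (dimension k Y) → Y},
      IsTranscendenceBasis k x → IsTranscendenceBasis k y → IsTranscendenceBasis k
        (Sum.elim (fun i => algebraMap B L (x i)) (fun j => algebraMap Y L (y j))) :=
    fun hx hy => sumElim_tb (hdim.trans hdimL) halg hx hy
  have hdimB : dimension k B + dimension k Y ≤ dimension k L := (hdim.trans hdimL).le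
  haveI hMne : Nonempty M.I := by
    obtain ⟨i, -⟩ := M.cover 1 (fun c hc => Valuation.one_apply_of_ne_zero (by simpa using hc))
    exact ⟨i⟩
  -- the forms on `M`
  obtain ⟨m₀, q₀, C₀, hlt, hmult, ω₀, hω₀, hω₀ne⟩ := hpos
  obtain ⟨m₂, hm₂, η₀, hη₀, hη₀ne, φ, hφ, hφη⟩ := hb
  set g₀ := coef hy m₀ ω₀ with hg₀
  set g₂ := coef hy m₂ η₀ with hg₂
  have hg₀mem := (mem_pluriSections_iff hy ω₀).mp hω₀
  have hg₂mem := (mem_pluriSections_iff hy η₀).mp hη₀
  have hg₀ne : g₀ ≠ 0 := fun h0 => hω₀ne (by rw [eq_coef_smul hy m₀ ω₀, ← hg₀, h0, zero_smul])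
  have hg₂ne : g₂ ≠ 0 := fun h0 => hη₀ne (by rw [eq_coef_smul hy m₂ η₀, ← hg₂, h0, zero_smul])
  have hφmem : ∀ i, φ i * g₂ ∈ CoefSec M (fun j => (D j).S) y m₂ (fun _ => m₂) := fun i => by
    have := (mem_pluriSections_iff hy _).mp (hφη i)
    rwa [map_smul, smul_eq_mul] at this
  -- the certificates
  have hcert : ∀ j, ∃ C, Cert (D j) C ∧ (q₀ j ≠ 0 → C ≤ C₀ j) := by
    intro j
    by_cases hj : q₀ j = 0
    · obtain ⟨C, hC⟩ := exists_cert (D j)
      exact ⟨C, hC, fun h => absurd hj h⟩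
    · exact ⟨C₀ j, (hmult j hj).cert, fun _ => le_rfl⟩
  choose C hC hCle using hcert
  have hlt' : 2 * ∑ j, C j * q₀ j < m₀ := by
    refine lt_of_le_of_lt ?_ hlt
    refine Nat.mul_le_mul_left 2 (Finset.sum_le_sum fun j _ => ?_)
    by_cases hj : q₀ j = 0
    · rw [hj]; simp
    · exact Nat.mul_le_mul_right _ (hCle j hj)
  -- the weights
  set N := 2 * m₂ * ∑ j, C j with hN
  set m := N * m₀ + m₂ with hm
  set q : J → ℕ := fun j => N * q₀ j + m₂ with hq
  have hqm : 2 * ∑ j, C j * q j ≤ m := by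
    have h1 : ∑ j, C j * q j = N * ∑ j, C j * q₀ j + m₂ * ∑ j, C j := by
      rw [Finset.mul_sum, Finset.mul_sum, ← Finset.sum_add_distrib]
      refine Finset.sum_congr rfl fun j _ => ?_
      simp only [hq]
      ring
    rw [h1, hm]
    calc 2 * (N * ∑ j, C j * q₀ j + m₂ * ∑ j, C j) = N * (2 * ∑ j, C j * q₀ j + 1) := by
          rw [hN]; ring
      _ ≤ N * m₀ := Nat.mul_le_mul_left N hlt'
      _ ≤ N * m₀ + m₂ := Nat.le_add_right _ _
  have hm1 : 1 ≤ m := by omega
  have hq1 : ∀ j, 1 ≤ q j := fun j => by simp only [hq]; omega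
  have hqm' : 2 * ∑ j, C j * (m₁ * q j) ≤ m₁ * m := by
    have h1 : ∑ j, C j * (m₁ * q j) = m₁ * ∑ j, C j * q j := by
      rw [Finset.mul_sum]
      exact Finset.sum_congr rfl fun j _ => by ring
    rw [h1]
    calc 2 * (m₁ * ∑ j, C j * q j) = m₁ * (2 * ∑ j, C j * q j) := by ring
      _ ≤ m₁ * m := Nat.mul_le_mul_left _ hqm
  -- the forms
  have hg : g₀ ^ N * g₂ ∈ CoefSec M (fun j => (D j).S) y m q := CoefSec.mul (CoefSec.pow hg₀mem N) hg₂mem
  have hgφ : ∀ i, g₀ ^ N * (φ i * g₂) ∈ CoefSec M (fun j => (D j).S) y m q := fun i =>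
    CoefSec.mul (CoefSec.pow hg₀mem N) (hφmem i)
  have hh : h₀ ^ m ∈ WOrb k E x (m₁ * m) := WOrb.pow hh₀ m
  choose l₀ hl₀ using fun j => (D j).a_ne
  have hnum : ∀ j, (D j).a (l₀ j) ^ (m₁ * q j) ∈ Num (D j) (m₁ * q j) := fun j => by
    have := Num.pow (Num.coeff (D := D j) (l₀ j)) (m₁ * q j)
    rwa [one_mul] at this
  have hsec0 : ∀ j, (D j).sec ≠ 0 := fun j => sec_ne_zero (D j) hBY hx
  set fam : Fin (dimension k B) ⊕ Fin (dimension k Y) → L :=
    Sum.elim (fun i => algebraMap B L (x i)) (fun j => algebraMap Y L (y j)) with hfam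
  have key := fun {h : B} (hh : h ∈ WOrb k E x (m₁ * m)) {g : Y}
      (hg : g ∈ CoefSec M (fun j => (D j).S) y (m₁ * m) (fun j => m₁ * q j)) {b : J → L}
      (hb : ∀ j, b j ∈ Num (D j) (m₁ * q j)) =>
    mem_GoodL (E := E) hx hy hBY hunr D hram hC hqm' hh hg hb
  have hM1 : 1 ≤ m₁ * m := Nat.one_le_iff_ne_zero.mpr (Nat.mul_ne_zero (by omega) (by omega))
  have hgM := CoefSec.pow hg m₁
  set b₀ : J → L := fun j => (D j).a (l₀ j) ^ (m₁ * q j) with hb₀
  set U : L := algebraMap B L (h₀ ^ m) * algebraMap Y L ((g₀ ^ N * g₂) ^ m₁) *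
    ∏ j, b₀ j / (D j).sec ^ (m₁ * q j) with hU
  have hUmem : U ∈ GoodL k E fam (m₁ * m) := key hh hgM hnum
  have hUne : U ≠ 0 := by
    refine mul_ne_zero (mul_ne_zero ?_ ?_) (Finset.prod_ne_zero_iff.mpr fun j _ => ?_)
    · simpa using pow_ne_zero _ hh₀ne
    · have := pow_ne_zero m₁ (mul_ne_zero (pow_ne_zero N hg₀ne) hg₂ne)
      simpa using this
    · exact div_ne_zero (pow_ne_zero _ (hl₀ j)) (pow_ne_zero _ (hsec0 j))
  -- the ratios
  have hR1 : (1 : L) ∈ Ratios k E fam := ⟨m₁ * m, hM1, U, hUmem, hUne, by rwa [one_mul]⟩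
  have hRB : ∀ f : B, f * h₀ ∈ WOrb k E x m₁ → algebraMap B L (f ^ m) ∈ Ratios k E fam := by
    intro f hf
    refine ⟨m₁ * m, hM1, U, hUmem, hUne, ?_⟩
    have h1 := key (WOrb.pow hf m) hgM hnum
    have h2 : algebraMap B L (f ^ m) * U = algebraMap B L ((f * h₀) ^ m) *
        algebraMap Y L ((g₀ ^ N * g₂) ^ m₁) * ∏ j, b₀ j / (D j).sec ^ (m₁ * q j) := by
      rw [hU, mul_pow f h₀ m, map_mul (algebraMap B L)]
      ring
    rw [h2]
    exact h1
  have hRY : ∀ i, algebraMap Y L (φ i) ∈ Ratios k E fam := by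
    intro i
    refine ⟨m₁ * m, hM1, U, hUmem, hUne, ?_⟩
    obtain ⟨m₁', rfl⟩ : ∃ m₁', m₁ = m₁' + 1 := ⟨m₁ - 1, by omega⟩
    have h0 := CoefSec.mul (CoefSec.pow hg m₁') (hgφ i)
    have h3 : (fun j => m₁' * q j + q j) = fun j => (m₁' + 1) * q j := by
      funext j; ring
    have h4 : m₁' * m + m = (m₁' + 1) * m := by ring
    rw [h3, h4] at h0
    have h1 := key hh h0 hnum
    have h2 : algebraMap Y L (φ i) * U = algebraMap B L (h₀ ^ m) *
        algebraMap Y L ((g₀ ^ N * g₂) ^ m₁' * (g₀ ^ N * (φ i * g₂))) *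
        ∏ j, b₀ j / (D j).sec ^ ((m₁' + 1) * q j) := by
      rw [hU]
      simp only [map_mul, map_pow]
      ring
    rw [h2]
    exact h1
  have hRA : ∀ θ : L, (∃ j, θ ∈ (D j).ratios) → θ ∈ Ratios k E fam := by
    rintro θ ⟨j, l, l', rfl⟩
    by_cases hl' : (D j).a l' = 0
    · refine ⟨m₁ * m, hM1, U, hUmem, hUne, ?_⟩
      rw [hl', div_zero, zero_mul]
      intro w _ c t _ _ htb
      simp
    · have hpos1 : 1 ≤ m₁ * q j := Nat.one_le_iff_ne_zero.mpr
        (Nat.mul_ne_zero (by omega) (by have := hq1 j; omega))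
      obtain ⟨p, hp⟩ : ∃ p, m₁ * q j = p + 1 := ⟨m₁ * q j - 1, by omega⟩
      have hn1 : ∀ l₁ : Fin ((D j).r + 1),
          (D j).a l₁ * (D j).a l' ^ p ∈ Num (D j) (m₁ * q j) := by
        intro l₁
        have := Num.mul (Num.coeff (D := D j) l₁) (Num.pow (Num.coeff (D := D j) l') p)
        rw [one_mul, add_comm 1 p, ← hp] at this
        exact this
      have hbn : ∀ l₁ : Fin ((D j).r + 1), ∀ j', Function.update b₀ j
          ((D j).a l₁ * (D j).a l' ^ p) j' ∈ Num (D j') (m₁ * q j') := by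
        intro l₁ j'
        by_cases hj : j' = j
        · subst hj
          rw [Function.update_self]
          exact hn1 l₁
        · rw [Function.update_of_ne hj]
          exact hnum j'
      have h1 := key hh hgM (hbn l')
      have h2 := key hh hgM (hbn l)
      have hprod : ∀ l₁ : Fin ((D j).r + 1), ∏ j', Function.update b₀ j
          ((D j).a l₁ * (D j).a l' ^ p) j' / (D j').sec ^ (m₁ * q j') =
          (D j).a l₁ * ((D j).a l' ^ p / (D j).sec ^ (m₁ * q j) *
            ∏ j' ∈ Finset.univ.erase j, b₀ j' / (D j').sec ^ (m₁ * q j')) := by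
        intro l₁
        rw [← Finset.mul_prod_erase Finset.univ _ (Finset.mem_univ j), Function.update_self]
        have h5 : ∏ j' ∈ Finset.univ.erase j, Function.update b₀ j
            ((D j).a l₁ * (D j).a l' ^ p) j' / (D j').sec ^ (m₁ * q j') =
            ∏ j' ∈ Finset.univ.erase j, b₀ j' / (D j').sec ^ (m₁ * q j') :=
          Finset.prod_congr rfl fun j' hj' => by
            rw [Function.update_of_ne (Finset.ne_of_mem_erase hj')]
        rw [h5]
        ring
      rw [hprod] at h1 h2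
      refine ⟨m₁ * m, hM1, _, h1, ?_, ?_⟩
      · refine mul_ne_zero (mul_ne_zero ?_ ?_) (mul_ne_zero hl' (mul_ne_zero
          (div_ne_zero (pow_ne_zero _ hl') (pow_ne_zero _ (hsec0 j)))
          (Finset.prod_ne_zero_iff.mpr fun j' _ =>
            div_ne_zero (pow_ne_zero _ (hl₀ j')) (pow_ne_zero _ (hsec0 j')))))
        · simpa using pow_ne_zero _ hh₀ne
        · have := pow_ne_zero m₁ (mul_ne_zero (pow_ne_zero N hg₀ne) hg₂ne)
          simpa using this
      · convert h2 using 1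
        field_simp
  -- the algebraically independent family
  have halg' : ∀ c : L, IsAlgebraic (Algebra.adjoin k
      (Set.range (algebraMap B L) ∪ Set.range (algebraMap Y L) ∪
        ⋃ i : PEmpty.{1}, Set.range ((fun i => i.elim : ∀ i : PEmpty.{1}, Fin 0 → L) i))) c := by
    intro c
    have h1 := halg c
    have h2 : (⋃ i : PEmpty.{1}, Set.range ((fun i => i.elim : ∀ i : PEmpty.{1}, Fin 0 → L) i)) =
        ∅ := by simp
    rw [h2, Set.union_empty]
    exact h1
  -- replace the elements of the first type by powers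
  set ξ' : Fin a → L := fun i => ξ i ^ m with hξ'def
  have hξ'' : AlgebraicIndependent k ξ' := algebraicIndependent_pow hξ hm1
  have hξB : ∀ i, IsAlgebraic B (ξ' i) := by
    intro i
    refine IsAlgebraic.pow ?_ m
    rcases hξ' i with ⟨f, hf, -⟩ | ⟨j, l, l', hθ⟩
    · rw [hf]; exact isAlgebraic_algebraMap f
    · rw [hθ, div_eq_mul_inv]
      exact ((D j).a_alg l).mul ((D j).a_alg l').inv
  have hjoint := tot_indep (k := k) (B := B) (F := Y) (L := L) (I := PEmpty.{1})
    (n := fun _ => 0) (fun i => i.elim) (fun i => i.elim) (by simpa using hdim.trans hdimL)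
    halg' ∅ (by simp) hξ'' hξB hφ
  set θ : Fin (a + b) → L := (Sum.elim ξ' (fun j => algebraMap Y L (φ j))) ∘ finSumFinEquiv.symm
    with hθ
  have hθind : AlgebraicIndependent k θ := by
    have h1 := hjoint.comp (Sum.map id Sum.inl : Fin a ⊕ Fin b → _)
      (Function.Injective.sumMap Function.injective_id Sum.inl_injective)
    have h2 : (Sum.elim ξ' (fun j => algebraMap Y L (φ j))) =
        (Sum.elim ξ' (Sum.elim (fun j => algebraMap Y L (φ j))
          (fun q : Σ i : (∅ : Finset PEmpty.{1}), Fin 0 =>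
            (fun i => i.elim : ∀ i : PEmpty.{1}, Fin 0 → L) q.1 q.2))) ∘
          (Sum.map id Sum.inl : Fin a ⊕ Fin b → _) := by
      funext i
      rcases i with i | i <;> rfl
    rw [hθ, h2]
    exact h1.comp _ finSumFinEquiv.symm.injective
  refine of_good (a := fam) (hBY hx hy) hθind (fun i => ?_) hR1
  rw [hθ]
  simp only [Function.comp_apply]
  rcases finSumFinEquiv.symm i with i' | j'
  · simp only [Sum.elim_inl]
    rcases hξ' i' with ⟨f, hf, hfm⟩ | hj
    · rw [hξ'def]
      simp only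
      rw [hf, ← map_pow]
      exact hRB f hfm
    · -- powers of ratios
      rw [hξ'def]
      simp only
      obtain ⟨m', hm', V, hV, hVne, hθV⟩ := hRA _ hj
      refine ⟨m * m', Nat.one_le_iff_ne_zero.mpr (Nat.mul_ne_zero (by omega) (by omega)),
        V ^ m, ?_, pow_ne_zero _ hVne, ?_⟩
      · intro w hw c t hc ht htb
        have h1 := hV w hw c t hc ht htb
        rw [map_pow, mul_comm m m', pow_mul, ← mul_pow]
        exact pow_le_one' h1 m
      · intro w hw c t hc ht htb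
        have h1 := hθV w hw c t hc ht htb
        rw [← mul_pow, map_pow, mul_comm m m', pow_mul, ← mul_pow]
        exact pow_le_one' h1 m
  · simp only [Sum.elim_inr]
    exact hRY j'

end core

end Pf72953.Mov
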